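import Mathlib
import Pool.Agent.Q47.TV.EtAcc

/-!
# Bases which are adapted to a valuation
-/

set_option autoImplicit false
set_option linter.unusedSectionVars false

namespace Pool.Agent.W2helper37.AQ

open Pool.Agent.H436R3.Fol Q47.QM Q47.TV

variable {K : Type} [Field K] [Algebra ℂ K] {v : DVal K}

/-- the order of `f` is at least `m` -/
def Ge (v : DVal K) (m : ℤ) (f : K) : Prop := f = 0 ∨ m ≤ v.ord f

theorem Ge.zero {m : ℤ} : Ge v m 0 := Or.inl rfl

theorem Ge.add {m : ℤ} {f g : K} (hf : Ge v m f) (hg : Ge v m g) : Ge v m (f + g) := by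
  by_cases h0 : f = 0
  · rw [h0, zero_add]; exact hg
  by_cases h1 : g = 0
  · rw [h1, add_zero]; exact hf
  by_cases h2 : f + g = 0
  · exact Or.inl h2
  right
  exact (le_min (hf.resolve_left h0) (hg.resolve_left h1)).trans (v.map_add f g h0 h1 h2)

theorem Ge.smul {m : ℤ} {f : K} (hf : Ge v m f) (c : ℂ) : Ge v m (algebraMap ℂ K c * f) := by
  by_cases hc : c = 0
  · left; rw [hc, map_zero, zero_mul]
  rcases hf with h | h
  · left; rw [h, mul_zero]
  · by_cases h0 : f = 0
    · left; rw [h0, mul_zero]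
    right
    rw [v.map_mul _ _ (alg_ne hc) h0, v.const _ hc, zero_add]
    exact h

theorem Ge.neg {m : ℤ} {f : K} (hf : Ge v m f) : Ge v m (-f) := by
  have := hf.smul (-1)
  rwa [map_neg, map_one, neg_one_mul] at this

theorem Ge.sub {m : ℤ} {f g : K} (hf : Ge v m f) (hg : Ge v m g) : Ge v m (f - g) := by
  rw [sub_eq_add_neg]
  exact hf.add hg.neg

theorem Ge.sum {m : ℤ} {ι : Type*} (s : Finset ι) {f : ι → K} (h : ∀ i ∈ s, Ge v m (f i)) :
    Ge v m (∑ i ∈ s, f i) := by
  classical
  induction s using Finset.induction_on with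
  | empty => rw [Finset.sum_empty]; exact Ge.zero
  | insert a s ha ih =>
    rw [Finset.sum_insert ha]
    exact (h a (Finset.mem_insert_self _ _)).add
      (ih fun i hi => h i (Finset.mem_insert_of_mem hi))

theorem Ge.mono {m m' : ℤ} {f : K} (h : Ge v m f) (hm : m' ≤ m) : Ge v m' f :=
  h.imp id fun h => hm.trans h

theorem ord_add_of_ge {f g : K} (hf : f ≠ 0) (hg : Ge v (v.ord f + 1) g) :
    f + g ≠ 0 ∧ v.ord (f + g) = v.ord f := by
  by_cases hg0 : g = 0
  · rw [hg0, add_zero]; exact ⟨hf, rfl⟩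
  have h1 := hg.resolve_left hg0
  have h2 : f + g ≠ 0 := by
    intro h
    have h3 : g = -f := by linear_combination h
    rw [h3, v.ord_neg hf] at h1
    omega
  refine ⟨h2, ?_⟩
  have h3 := v.map_add f g hf hg0 h2
  have h4 := v.map_add (f + g) (-g) h2 (neg_ne_zero.2 hg0) (by rw [add_neg_cancel_right]; exact hf)
  rw [add_neg_cancel_right, v.ord_neg hg0] at h4
  rcases le_total (v.ord (f + g)) (v.ord g) with h5 | h5
  · rw [min_eq_left h5] at h4
    rw [min_eq_left (by omega)] at h3
    omega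
  · rw [min_eq_right h5] at h4
    omega

variable {n : ℕ}

/-- the linear combination of the elements of a family -/
noncomputable def cb (y : Fin n → K) (c : Fin n → ℂ) : K := ∑ i, algebraMap ℂ K (c i) * y i

/-- The family `y` is adapted to the valuation `v`: the order of a linear combination is at most the
orders of the elements which occur in it. -/
def Adapted (v : DVal K) (y : Fin n → K) : Prop :=
  ∀ (c : Fin n → ℂ) (i : Fin n), c i ≠ 0 → cb y c ≠ 0 ∧ v.ord (cb y c) ≤ v.ord (y i)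

theorem cb_add (y : Fin n → K) (c c' : Fin n → ℂ) : cb y (c + c') = cb y c + cb y c' := by
  rw [cb, cb, cb, ← Finset.sum_add_distrib]
  exact Finset.sum_congr rfl fun i _ => by rw [Pi.add_apply, map_add, add_mul]

theorem cb_sub (y : Fin n → K) (c c' : Fin n → ℂ) : cb y (c - c') = cb y c - cb y c' := by
  rw [cb, cb, cb, ← Finset.sum_sub_distrib]
  exact Finset.sum_congr rfl fun i _ => by rw [Pi.sub_apply, map_sub, sub_mul]

theorem cb_smul (y : Fin n → K) (a : ℂ) (c : Fin n → ℂ) :
    cb y (a • c) = algebraMap ℂ K a * cb y c := by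
  rw [cb, cb, Finset.mul_sum]
  exact Finset.sum_congr rfl fun i _ => by rw [Pi.smul_apply, smul_eq_mul, map_mul, mul_assoc]

theorem cb_single (y : Fin n → K) (i : Fin n) : cb y (Pi.single i 1) = y i := by
  classical
  rw [cb, Finset.sum_eq_single i]
  · rw [Pi.single_eq_same, map_one, one_mul]
  · intro j _ hj
    rw [Pi.single_eq_of_ne hj, map_zero, zero_mul]
  · intro h; exact absurd (Finset.mem_univ _) h

theorem cb_mem (y : Fin n → K) (c : Fin n → ℂ) : cb y c ∈ Submodule.span ℂ (Set.range y) := by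
  refine Submodule.sum_mem _ fun i _ => ?_
  rw [← Algebra.smul_def]
  exact Submodule.smul_mem _ _ (Submodule.subset_span ⟨i, rfl⟩)

theorem mem_span_iff_cb (y : Fin n → K) (f : K) :
    f ∈ Submodule.span ℂ (Set.range y) ↔ ∃ c, cb y c = f := by
  rw [Submodule.mem_span_range_iff_exists_fun]
  refine exists_congr fun c => ?_
  rw [cb]
  simp only [Algebra.smul_def]

theorem Adapted.ne {y : Fin n → K} (h : Adapted v y) (i : Fin n) : y i ≠ 0 := by
  have h1 := (h (Pi.single i 1) i (by rw [Pi.single_eq_same]; exact one_ne_zero)).1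
  rwa [cb_single] at h1

theorem Adapted.li {y : Fin n → K} (h : Adapted v y) : LinearIndependent ℂ y := by
  rw [Fintype.linearIndependent_iff]
  intro c hc i
  by_contra hi
  apply (h c i hi).1
  rw [← hc, cb]
  exact Finset.sum_congr rfl fun i _ => (Algebra.smul_def _ _).symm

theorem Adapted.ge {y : Fin n → K} (c : Fin n → ℂ) {m : ℤ}
    (hm : ∀ i, c i ≠ 0 → m ≤ v.ord (y i)) : Ge v m (cb y c) := by
  refine Ge.sum _ fun i _ => ?_
  by_cases hi : c i = 0
  · rw [hi, map_zero, zero_mul]; exact Ge.zero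
  · exact Ge.smul (Or.inr (hm i hi)) _

/-- The order of a linear combination of an adapted family is the least order of the elements which
occur in it. -/
theorem Adapted.exists_eq {y : Fin n → K} (h : Adapted v y) {c : Fin n → ℂ} (hc : c ≠ 0) :
    ∃ i, c i ≠ 0 ∧ v.ord (cb y c) = v.ord (y i) := by
  classical
  obtain ⟨i0, hi0⟩ := Function.ne_iff.1 hc
  obtain ⟨i, hi, hmin⟩ := (Finset.univ.filter fun i => c i ≠ 0).exists_min_image
    (fun i => v.ord (y i)) ⟨i0, by simpa using hi0⟩
  have hi' : c i ≠ 0 := (Finset.mem_filter.1 hi).2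
  refine ⟨i, hi', le_antisymm (h c i hi').2 ?_⟩
  have h1 : Ge v (v.ord (y i)) (cb y c) := Adapted.ge c fun j hj =>
    hmin j (Finset.mem_filter.2 ⟨Finset.mem_univ _, hj⟩)
  exact h1.resolve_left (h c i hi').1

/-- Existence of adapted bases. -/
theorem exists_adapted (v : DVal K) : ∀ (n : ℕ) (u : Fin n → K), LinearIndependent ℂ u →
    ∃ y : Fin n → K, Adapted v y ∧ ∀ i, y i ∈ Submodule.span ℂ (Set.range u) := by
  intro n
  induction n with
  | zero => exact fun u _ => ⟨u, fun c i => i.elim0, fun i => i.elim0⟩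
  | succ n ih =>
    intro u hu
    rw [linearIndependent_finSucc] at hu
    obtain ⟨y, hy, hyu⟩ := ih (Fin.tail u) hu.1
    have hspan : Submodule.span ℂ (Set.range y) ≤ Submodule.span ℂ (Set.range (Fin.tail u)) := by
      rw [Submodule.span_le]
      rintro _ ⟨i, rfl⟩
      exact hyu i
    have hF0 : ∀ c, u 0 + cb y c ≠ 0 := by
      intro c h
      apply hu.2
      have h1 : u 0 = -cb y c := by linear_combination h
      rw [h1]
      exact Submodule.neg_mem _ (hspan (cb_mem y c))
    -- the orders are bounded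
    obtain ⟨c0, hc0⟩ : ∃ c0, ∀ c, v.ord (u 0 + cb y c) ≤ v.ord (u 0 + cb y c0) := by
      obtain ⟨M, hM⟩ : ∃ M : ℤ, ∀ i, v.ord (y i) ≤ M := by
        obtain ⟨M, hM⟩ := (Set.finite_range fun i => v.ord (y i)).bddAbove
        exact ⟨M, fun i => hM ⟨i, rfl⟩⟩
      by_cases hex : ∃ c0, M < v.ord (u 0 + cb y c0)
      · obtain ⟨c0, h0⟩ := hex
        refine ⟨c0, fun c => ?_⟩
        by_contra hcon
        push Not at hcon
        have h1 : u 0 + cb y c ≠ u 0 + cb y c0 := by
          intro h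
          rw [h] at hcon
          exact lt_irrefl _ hcon
        have h2 : c - c0 ≠ 0 := by
          intro h
          rw [sub_eq_zero.1 h] at h1
          exact h1 rfl
        obtain ⟨i, hi⟩ := Function.ne_iff.1 h2
        have h3 := hy (c - c0) i hi
        have h4 : cb y (c - c0) = (u 0 + cb y c) - (u 0 + cb y c0) := by rw [cb_sub]; ring
        have h5 : Ge v (v.ord (u 0 + cb y c0)) (cb y (c - c0)) := by
          rw [h4]
          exact Ge.sub (Or.inr hcon.le) (Or.inr le_rfl)
        have h6 := h5.resolve_left h3.1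
        have h7 := hM i
        omega
      · push Not at hex
        have hb : BddAbove (Set.range fun c => v.ord (u 0 + cb y c)) := by
          refine ⟨M, ?_⟩
          rintro _ ⟨c, rfl⟩
          exact hex c
        obtain ⟨c0, hc0⟩ := Int.csSup_mem (Set.range_nonempty fun c => v.ord (u 0 + cb y c)) hb
        refine ⟨c0, fun c => ?_⟩
        have h1 := le_csSup hb ⟨c, rfl⟩
        rw [← hc0] at h1
        exact h1
    set f := u 0 + cb y c0 with hf
    have hf0 : f ≠ 0 := hF0 c0
    have hcons : ∀ c : Fin (n + 1) → ℂ, cb (Fin.cons f y) c =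
        algebraMap ℂ K (c 0) * f + cb y (Fin.tail c) := by
      intro c
      rw [cb, Fin.sum_univ_succ]
      rfl
    refine ⟨Fin.cons f y, ?_, ?_⟩
    · intro c i hi
      rw [hcons]
      by_cases h0 : c 0 = 0
      · rw [h0, map_zero, zero_mul, zero_add]
        obtain ⟨i', rfl⟩ : ∃ i', i = Fin.succ i' := by
          refine Fin.cases (fun hi => absurd h0 hi) (fun i' _ => ⟨i', rfl⟩) i hi
        rw [Fin.cons_succ]
        exact hy (Fin.tail c) i' hi
      · set d : Fin n → ℂ := (c 0)⁻¹ • Fin.tail c with hd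
        have h1 : algebraMap ℂ K (c 0) * f + cb y (Fin.tail c) =
            algebraMap ℂ K (c 0) * (f + cb y d) := by
          have h7 : cb y d = algebraMap ℂ K (c 0)⁻¹ * cb y (Fin.tail c) := by rw [hd, cb_smul]
          have h8 : algebraMap ℂ K (c 0) * algebraMap ℂ K (c 0)⁻¹ = 1 := by
            rw [← map_mul, mul_inv_cancel₀ h0, map_one]
          rw [h7]
          linear_combination (-(cb y (Fin.tail c))) * h8
        have h2 : f + cb y d = u 0 + cb y (c0 + d) := by rw [hf, cb_add]; ring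
        have h3 : f + cb y d ≠ 0 := by rw [h2]; exact hF0 _
        have h4 : v.ord (f + cb y d) ≤ v.ord f := by rw [h2]; exact hc0 _
        rw [h1]
        refine ⟨mul_ne_zero (alg_ne h0) h3, ?_⟩
        rw [v.map_mul _ _ (alg_ne h0) h3, v.const _ h0, zero_add]
        refine Fin.cases (fun _ => ?_) (fun i' hi => ?_) i hi
        · rw [Fin.cons_zero]; exact h4
        · rw [Fin.cons_succ]
          have hdi : d i' ≠ 0 := mul_ne_zero (inv_ne_zero h0) hi
          have h5 := hy d i' hdi
          have h6 : Ge v (v.ord (f + cb y d)) ((f + cb y d) - f) :=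
            Ge.sub (Or.inr le_rfl) (Or.inr h4)
          rw [add_sub_cancel_left] at h6
          exact (h6.resolve_left h5.1).trans h5.2
    · intro i
      have hle : Submodule.span ℂ (Set.range (Fin.tail u)) ≤ Submodule.span ℂ (Set.range u) :=
        Submodule.span_mono (by rintro _ ⟨j, rfl⟩; exact ⟨j.succ, rfl⟩)
      refine Fin.cases ?_ (fun i' => ?_) i
      · rw [Fin.cons_zero, hf]
        exact Submodule.add_mem _ (Submodule.subset_span ⟨0, rfl⟩) (hle (hspan (cb_mem y c0)))
      · rw [Fin.cons_succ]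
        exact hle (hyu i')

/-- Adapted bases of eigenvectors of an element of the inertia group. -/
theorem exists_eig {τ : K ≃ₐ[ℂ] K} (hI : InI v τ) {ζ : ℂ} (hch : Ch v τ ζ) {r : ℕ} (hr : 0 < r)
    (hτ : τ ^ r = 1) {W : Submodule ℂ K} (hW : ∀ f ∈ W, τ f ∈ W) {y : Fin n → K}
    (hy : Adapted v y) (hyW : ∀ i, y i ∈ W) :
    ∃ z : Fin n → K, Adapted v z ∧ (∀ i, z i ∈ W) ∧
      ∀ i, τ (z i) = algebraMap ℂ K (ζ ^ v.ord (z i)) * z i := by
  have hζ0 : ζ ≠ 0 := hch.1
  have hpow : ∀ k : ℕ, Ch v (τ ^ k) (ζ ^ k) := fun k => Ch.pow' hI hch k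
  have hζr : ζ ^ r = 1 := by
    have h1 := hpow r
    rw [hτ] at h1
    exact h1.uniq Ch.one
  have hr' : (r : ℂ) ≠ 0 := by exact_mod_cast hr.ne'
  have hWk : ∀ (k : ℕ) (f : K), f ∈ W → (τ ^ k) f ∈ W := by
    intro k
    induction k with
    | zero => intro f hf; exact hf
    | succ k ih =>
      intro f hf
      rw [pow_succ, AlgEquiv.mul_apply]
      exact ih _ (hW f hf)
  let l : Fin n → ℂ := fun i => ζ ^ v.ord (y i)
  have hl0 : ∀ i, l i ≠ 0 := fun i => zpow_ne_zero _ hζ0
  have hlr : ∀ i, l i ^ r = 1 := by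
    intro i
    change (ζ ^ v.ord (y i)) ^ r = 1
    rw [← zpow_natCast, ← zpow_mul, mul_comm, zpow_mul, zpow_natCast, hζr, one_zpow]
  let g : Fin n → ℕ → K := fun i k => algebraMap ℂ K ((l i)⁻¹ ^ k) * (τ ^ k) (y i)
  let z : Fin n → K := fun i => algebraMap ℂ K (r : ℂ)⁻¹ * ∑ k ∈ Finset.range r, g i k
  have hg0 : ∀ i, g i 0 = y i := fun i => by
    change algebraMap ℂ K ((l i)⁻¹ ^ 0) * (τ ^ 0) (y i) = y i
    rw [pow_zero, map_one, one_mul, pow_zero, AlgEquiv.one_apply]
  have hgr : ∀ i, g i r = g i 0 := fun i => by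
    change algebraMap ℂ K ((l i)⁻¹ ^ r) * (τ ^ r) (y i) = _
    rw [hg0, inv_pow, hlr, inv_one, map_one, one_mul, hτ, AlgEquiv.one_apply]
  have hτg : ∀ i k, τ (g i k) = algebraMap ℂ K (l i) * g i (k + 1) := by
    intro i k
    change τ (algebraMap ℂ K ((l i)⁻¹ ^ k) * (τ ^ k) (y i)) =
      algebraMap ℂ K (l i) * (algebraMap ℂ K ((l i)⁻¹ ^ (k + 1)) * (τ ^ (k + 1)) (y i))
    rw [map_mul, AlgEquiv.commutes, ← mul_assoc, ← map_mul, pow_succ' τ, AlgEquiv.mul_apply]
    congr 2
    rw [pow_succ]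
    field_simp [hl0 i]
  have hτz : ∀ i, τ (z i) = algebraMap ℂ K (l i) * z i := by
    intro i
    change τ (algebraMap ℂ K (r : ℂ)⁻¹ * ∑ k ∈ Finset.range r, g i k) =
      algebraMap ℂ K (l i) * (algebraMap ℂ K (r : ℂ)⁻¹ * ∑ k ∈ Finset.range r, g i k)
    have h1 : ∑ k ∈ Finset.range r, g i (k + 1) = ∑ k ∈ Finset.range r, g i k := by
      have h2 := Finset.sum_range_succ (g i) r
      rw [Finset.sum_range_succ', hgr] at h2
      exact add_right_cancel h2
    rw [map_mul, AlgEquiv.commutes, map_sum, Finset.sum_congr rfl fun k _ => hτg i k,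
      ← Finset.mul_sum, h1]
    ring
  have hd : ∀ i, Ge v (v.ord (y i) + 1) (z i - y i) := by
    intro i
    have h1 : z i - y i = algebraMap ℂ K (r : ℂ)⁻¹ * ∑ k ∈ Finset.range r, (g i k - y i) := by
      rw [Finset.sum_sub_distrib, Finset.sum_const, Finset.card_range, nsmul_eq_mul, mul_sub,
        ← mul_assoc]
      have h2 : algebraMap ℂ K (r : ℂ)⁻¹ * (r : K) = 1 := by
        rw [← map_natCast (algebraMap ℂ K), ← map_mul, inv_mul_cancel₀ hr', map_one]
      rw [h2, one_mul]
    rw [h1]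
    refine Ge.smul (Ge.sum _ fun k _ => ?_) _
    have h2 := ((hpow k).2 (y i) (hy.ne i)).2
    have h3 : g i k - y i = algebraMap ℂ K ((l i)⁻¹ ^ k) *
        (y i * ((τ ^ k) (y i) / y i - algebraMap ℂ K ((ζ ^ k) ^ v.ord (y i)))) := by
      have h4 : (ζ ^ k) ^ v.ord (y i) = l i ^ k := by
        change _ = (ζ ^ v.ord (y i)) ^ k
        rw [← zpow_natCast, ← zpow_natCast, ← zpow_mul, ← zpow_mul, mul_comm]
      have h5 : algebraMap ℂ K ((l i)⁻¹ ^ k) * algebraMap ℂ K (l i ^ k) = 1 := by
        rw [← map_mul, ← mul_pow, inv_mul_cancel₀ (hl0 i), one_pow, map_one]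
      change algebraMap ℂ K ((l i)⁻¹ ^ k) * (τ ^ k) (y i) - y i = _
      rw [h4, mul_sub, mul_div_cancel₀ _ (hy.ne i), mul_sub]
      linear_combination (y i) * h5
    rw [h3]
    refine Ge.smul ?_ _
    rcases h2 with h2 | h2
    · left; rw [h2, mul_zero]
    · by_cases h6 : (τ ^ k) (y i) / y i - algebraMap ℂ K ((ζ ^ k) ^ v.ord (y i)) = 0
      · left; rw [h6, mul_zero]
      right
      rw [v.map_mul _ _ (hy.ne i) h6]
      omega
  have hz1 : ∀ i, z i ≠ 0 ∧ v.ord (z i) = v.ord (y i) := by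
    intro i
    have h1 := ord_add_of_ge (hy.ne i) (hd i)
    rwa [add_sub_cancel] at h1
  refine ⟨z, fun c i hi => ?_, fun i => ?_, fun i => ?_⟩
  · have hc : c ≠ 0 := fun h => hi (by rw [h, Pi.zero_apply])
    have h1 : cb z c = cb y c + cb (fun i => z i - y i) c := by
      rw [cb, cb, cb, ← Finset.sum_add_distrib]
      exact Finset.sum_congr rfl fun i _ => by ring
    have h2 : Ge v (v.ord (cb y c) + 1) (cb (fun i => z i - y i) c) := by
      refine Ge.sum _ fun j _ => ?_
      by_cases hj : c j = 0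
      · rw [hj, map_zero, zero_mul]; exact Ge.zero
      · refine Ge.smul ((hd j).mono ?_) _
        have := (hy c j hj).2
        omega
    have h3 := ord_add_of_ge (hy c i hi).1 h2
    rw [h1, (hz1 i).2]
    exact ⟨h3.1, h3.2.le.trans (hy c i hi).2⟩
  · change algebraMap ℂ K (r : ℂ)⁻¹ * ∑ k ∈ Finset.range r, g i k ∈ W
    rw [← Algebra.smul_def]
    refine Submodule.smul_mem _ _ (Submodule.sum_mem _ fun k _ => ?_)
    change algebraMap ℂ K ((l i)⁻¹ ^ k) * (τ ^ k) (y i) ∈ W
    rw [← Algebra.smul_def]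
    exact Submodule.smul_mem _ _ (hWk k _ (hyW i))
  · rw [hτz, (hz1 i).2]

end Pool.Agent.W2helper37.AQ
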