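import Mathlib
import Pool.Agent.W2helper37.AQ.Adapt

/-!
# Linear changes of the coordinates of the affine space
-/

set_option autoImplicit false
set_option linter.unusedSectionVars false

namespace Pool.Agent.W2helper37.AQ

open Pool.Agent.H436R3.Fol Pool.Agent.H436R3.KT Pool.Agent.W497.Mld Q47.QM Q47.TV MvPolynomial

variable {n : ℕ} {K : Type} [Field K] [Algebra ℂ K]
  [Algebra (MvPolynomial (Fin n) ℂ) K] [IsFractionRing (MvPolynomial (Fin n) ℂ) K]
  [IsScalarTower ℂ (MvPolynomial (Fin n) ℂ) K]

/-- the coordinates which vanish at the point `c` -/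
noncomputable def cc (K : Type) [Field K] [Algebra ℂ K]
    [Algebra (MvPolynomial (Fin n) ℂ) K] [IsFractionRing (MvPolynomial (Fin n) ℂ) K]
    [IsScalarTower ℂ (MvPolynomial (Fin n) ℂ) K] (c : Fin n → ℂ) (i : Fin n) : K :=
  cv K i - algebraMap ℂ K (c i)

theorem pd_cc (c : Fin n → ℂ) (i j : Fin n) : pd K i (cc K c j) = if i = j then 1 else 0 := by
  rw [cc, map_sub, pd_cv, Derivation.map_algebraMap, sub_zero]

theorem pd_cb (c a : Fin n → ℂ) (i : Fin n) : pd K i (cb (cc K c) a) = algebraMap ℂ K (a i) := by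
  rw [cb, map_sum, Finset.sum_eq_single i]
  · rw [Derivation.leibniz, Derivation.map_algebraMap, smul_zero, add_zero, pd_cc, if_pos rfl,
      smul_eq_mul, mul_one]
  · intro j _ hj
    rw [Derivation.leibniz, Derivation.map_algebraMap, smul_zero, add_zero, pd_cc, if_neg hj.symm,
      smul_zero]
  · intro h; exact absurd (Finset.mem_univ _) h

theorem cc_li (c : Fin n → ℂ) : LinearIndependent ℂ (cc K c) := by
  rw [Fintype.linearIndependent_iff]
  intro a ha i
  have h1 : cb (cc K c) a = 0 := by
    rw [← ha, cb]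
    exact Finset.sum_congr rfl fun i _ => (Algebra.smul_def _ _).symm
  have h2 := pd_cb (K := K) c a i
  rw [h1, map_zero] at h2
  exact (map_eq_zero_iff _ (algebraMap ℂ K).injective).1 h2.symm

theorem cc_mem (c : Fin n → ℂ) (i : Fin n) : cc K c i ∈ RA (Fin n) K :=
  sub_mem (cv_mem i) (Subalgebra.algebraMap_mem _ _)

/-- **Linear changes of coordinates**: linearly independent elements of the space spanned by the
coordinates which vanish at a point are the variables of another description of `K` as the field of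
fractions of a polynomial ring. -/
theorem exists_coords {R0 : Subalgebra ℂ K} (hR0 : R0 = RA (Fin n) K) (c : Fin n → ℂ)
    {z : Fin n → K} (hz : LinearIndependent ℂ z)
    (hzW : ∀ i, z i ∈ Submodule.span ℂ (Set.range (cc K c))) :
    (∀ f ∈ Submodule.span ℂ (Set.range (cc K c)), f ∈ Submodule.span ℂ (Set.range z)) ∧
    ∃ (i1 : Algebra (MvPolynomial (Fin n) ℂ) K)
      (_ : @IsFractionRing (MvPolynomial (Fin n) ℂ) _ K _ i1)
      (i3 : @IsScalarTower ℂ (MvPolynomial (Fin n) ℂ) K _ i1.toSMul _),
      (∀ i, @cv (Fin n) K _ _ i1 i3 i = z i) ∧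
        R0 = @RA (Fin n) K _ _ i1 i3 := by
  have hle : Submodule.span ℂ (Set.range z) ≤ Submodule.span ℂ (Set.range (cc K c)) := by
    rw [Submodule.span_le]
    rintro _ ⟨i, rfl⟩
    exact hzW i
  have heq : Submodule.span ℂ (Set.range z) = Submodule.span ℂ (Set.range (cc K c)) := by
    have : FiniteDimensional ℂ (Submodule.span ℂ (Set.range (cc K c))) :=
      FiniteDimensional.span_of_finite ℂ (Set.finite_range _)
    apply Submodule.eq_of_le_of_finrank_le hle
    rw [finrank_span_eq_card hz, finrank_span_eq_card (cc_li c)]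
  refine ⟨fun f hf => by rw [heq]; exact hf, ?_⟩
  choose A hA using fun i => (mem_span_iff_cb (cc K c) (z i)).1 (hzW i)
  -- algebraic independence
  have hrows : LinearIndependent ℂ A := by
    let φ : (Fin n → ℂ) →ₗ[ℂ] K :=
      { toFun := cb (cc K c)
        map_add' := cb_add _
        map_smul' := fun a x => by
          rw [cb_smul, RingHom.id_apply, Algebra.smul_def] }
    refine LinearIndependent.of_comp φ ?_
    have h1 : (φ ∘ A : Fin n → K) = z := funext fun i => hA i
    rw [h1]
    exact hz
  have hdet : (Matrix.of A).det ≠ 0 := by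
    have h1 : IsUnit (Matrix.of A) := Matrix.linearIndependent_rows_iff_isUnit.1 hrows
    exact ((Matrix.isUnit_iff_isUnit_det _).1 h1).ne_zero
  have hai : AlgebraicIndependent ℂ z := by
    apply algInd_of_jac
    have h1 : (Matrix.of fun j k => pd K j (z k)) =
        ((Matrix.of A).transpose).map (algebraMap ℂ K) := by
      ext j k
      rw [Matrix.of_apply, Matrix.map_apply, Matrix.transpose_apply, Matrix.of_apply, ← hA k,
        pd_cb]
    rw [h1]
    have h2 := (algebraMap ℂ K).map_det ((Matrix.of A).transpose)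
    rw [RingHom.mapMatrix_apply] at h2
    rw [← h2, Matrix.det_transpose]
    exact alg_ne hdet
  have hinj : Function.Injective (aeval z : MvPolynomial (Fin n) ℂ →ₐ[ℂ] K) :=
    algebraicIndependent_iff_injective_aeval.1 hai
  have hrange : (aeval z : MvPolynomial (Fin n) ℂ →ₐ[ℂ] K).range = RA (Fin n) K := by
    apply le_antisymm
    · rintro _ ⟨q, rfl⟩
      change aeval z q ∈ _
      induction q using MvPolynomial.induction_on with
      | C a => rw [← MvPolynomial.algebraMap_eq, AlgHom.commutes]; exact Subalgebra.algebraMap_mem _ _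
      | add p q hp hq => rw [map_add]; exact add_mem hp hq
      | mul_X p j hp =>
        rw [map_mul, aeval_X]
        refine mul_mem hp ?_
        rw [← hA j, cb]
        exact sum_mem fun i _ => mul_mem (Subalgebra.algebraMap_mem _ _) (cc_mem c i)
    · rintro _ ⟨q, rfl⟩
      change jo (Fin n) K q ∈ _
      induction q using MvPolynomial.induction_on with
      | C a => rw [jo_C]; exact Subalgebra.algebraMap_mem _ _
      | add p q hp hq => rw [map_add]; exact add_mem hp hq
      | mul_X p j hp =>
        rw [map_mul]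
        refine mul_mem hp ?_
        have h1 : cc K c j ∈ Submodule.span ℂ (Set.range z) := by
          rw [heq]
          exact Submodule.subset_span ⟨j, rfl⟩
        obtain ⟨b, hb⟩ := (mem_span_iff_cb z _).1 h1
        have h2 : jo (Fin n) K (X j) = cb z b + algebraMap ℂ K (c j) := by
          rw [hb, cc, sub_add_cancel]
          rfl
        rw [h2]
        refine add_mem ?_ (Subalgebra.algebraMap_mem _ _)
        rw [cb]
        refine sum_mem fun i _ => mul_mem (Subalgebra.algebraMap_mem _ _) ?_
        exact ⟨X i, aeval_X _ _⟩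
  have hfrac := fun f : K => RA_frac (ι := Fin n) f
  let i1 : Algebra (MvPolynomial (Fin n) ℂ) K :=
    (aeval z : MvPolynomial (Fin n) ℂ →ₐ[ℂ] K).toRingHom.toAlgebra
  have hmap : ∀ q, @algebraMap (MvPolynomial (Fin n) ℂ) K _ _ i1 q = aeval z q := fun q => rfl
  have i3 : @IsScalarTower ℂ (MvPolynomial (Fin n) ℂ) K _ i1.toSMul _ := by
    refine @IsScalarTower.of_algebraMap_eq ℂ (MvPolynomial (Fin n) ℂ) K _ _ _ _ i1 _ fun x => ?_
    rw [hmap, AlgHom.commutes]
  have i2 : @IsFractionRing (MvPolynomial (Fin n) ℂ) _ K _ i1 := by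
    have hfs : @FaithfulSMul (MvPolynomial (Fin n) ℂ) K i1.toSMul := by
      refine @FaithfulSMul.mk _ _ i1.toSMul ?_
      intro a b h
      apply hinj
      have h1 := h 1
      rw [@Algebra.smul_def _ _ _ _ i1, @Algebra.smul_def _ _ _ _ i1, mul_one, mul_one] at h1
      exact h1
    refine @IsFractionRing.of_field (MvPolynomial (Fin n) ℂ) _ K _ i1 hfs ?_
    intro f
    obtain ⟨a, b, ha, hb, hb0, hab⟩ := hfrac f
    rw [← hrange] at ha hb
    obtain ⟨p, rfl⟩ := ha
    obtain ⟨q, rfl⟩ := hb
    refine ⟨p, q, ?_⟩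
    rw [hmap, hmap]
    exact eq_div_of_mul_eq hb0 hab
  refine ⟨i1, i2, i3, fun i => ?_, ?_⟩
  · change @algebraMap (MvPolynomial (Fin n) ℂ) K _ _ i1 (X i) = _
    rw [hmap, aeval_X]
  · rw [hR0, ← hrange]
    ext f
    exact Iff.rfl

end Pool.Agent.W2helper37.AQ
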