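import Mathlib
import Pool.Agent.W2helper37.AQ.Adapt
import Pool.Agent.TH165.ACC.Cano

/-!
# Canonical orders for different bases of the rational vector fields
-/

set_option autoImplicit false
set_option linter.unusedSectionVars false

namespace Pool.Agent.W2helper37.AQ

open Pool.Agent.H436R3.Fol Pool.Agent.H436R3.KT Pool.Agent.W497.Mld Pool.Agent.TH165.ACC
  MvPolynomial

section chg

variable {L : Type} [Field L] [Algebra ℂ L]

theorem rows {d : ℕ} (D D' : Fin d → Derivation ℂ L L)
    (M : Matrix (Fin d) (Fin d) L) (hM : ∀ i, D i = ∑ j, M i j • D' j)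
    (A : Matrix (Fin d) (Fin d) L) (i : Fin d) :
    ∑ j, (A * M) i j • D' j = ∑ j, A i j • D j := by
  calc ∑ j, (A * M) i j • D' j = ∑ j, ∑ k, (A i k * M k j) • D' j := by
        refine Finset.sum_congr rfl fun j _ => ?_
        rw [Matrix.mul_apply, Finset.sum_smul]
    _ = ∑ k, ∑ j, (A i k * M k j) • D' j := Finset.sum_comm
    _ = ∑ k, A i k • D k := by
        refine Finset.sum_congr rfl fun k _ => ?_
        rw [hM k, Finset.smul_sum]
        exact Finset.sum_congr rfl fun j _ => by rw [mul_smul]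

theorem chgM {d : ℕ} (T T' : Foliation L d) {M N : Matrix (Fin d) (Fin d) L} (hMN : M * N = 1)
    (hM : ∀ i, T.D i = ∑ j, M i j • T'.D j) (hN : ∀ i, T'.D i = ∑ j, N i j • T.D j)
    {w : DVal L} {n : ℤ} (hn : IsCanOrd T w n) : IsCanOrd T' w (n + w.ord M.det) := by
  have hdet : M.det * N.det = 1 := by rw [← Matrix.det_mul, hMN, Matrix.det_one]
  have hM0 : M.det ≠ 0 := left_ne_zero_of_mul_eq_one hdet
  have hN0 : N.det ≠ 0 := right_ne_zero_of_mul_eq_one hdet
  have hord : w.ord M.det + w.ord N.det = 0 := by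
    rw [← w.map_mul _ _ hM0 hN0, hdet, w.ord_one]
  obtain ⟨⟨A, hA0, hAp, hAn⟩, hmin⟩ := hn
  refine ⟨⟨A * M, ?_, fun i => ?_, ?_⟩, ?_⟩
  · rw [Matrix.det_mul]; exact mul_ne_zero hA0 hM0
  · rw [rows T.D T'.D M hM]
    exact hAp i
  · rw [Matrix.det_mul, w.map_mul _ _ hA0 hM0, hAn]
  · rintro m ⟨A', hA0', hAp', rfl⟩
    have h1 := hmin ⟨A' * N, by rw [Matrix.det_mul]; exact mul_ne_zero hA0' hN0, fun i => by
      rw [rows T'.D T.D N hN]; exact hAp' i, rfl⟩
    rw [Matrix.det_mul, w.map_mul _ _ hA0' hN0] at h1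
    omega

/-- Canonical orders with respect to different bases of the rational vector fields differ by the
order of a function. -/
theorem chg' {d d' : ℕ} (T : Foliation L d) (T' : Foliation L d') (hT : T.space = ⊤)
    (hT' : T'.space = ⊤) : ∃ h : L, h ≠ 0 ∧
      ∀ (w : DVal L) (n : ℤ), IsCanOrd T w n → IsCanOrd T' w (n + w.ord h) := by
  have hsT : ⊤ ≤ Submodule.span L (Set.range T.D) := by
    have : Submodule.span L (Set.range T.D) = ⊤ := hT
    rw [this]
  have hsT' : ⊤ ≤ Submodule.span L (Set.range T'.D) := by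
    have : Submodule.span L (Set.range T'.D) = ⊤ := hT'
    rw [this]
  let b := Module.Basis.mk T.indep hsT
  let b' := Module.Basis.mk T'.indep hsT'
  have hd : d = d' := by
    have h1 := Fintype.card_congr (b.indexEquiv b')
    simpa using h1
  subst hd
  have hM : ∀ i, T.D i = ∑ j, (b'.toMatrix b).transpose i j • T'.D j := by
    intro i
    have h1 := b'.sum_toMatrix_smul_self (b : Fin d → Derivation ℂ L L) i
    have h2 : b i = T.D i := Module.Basis.mk_apply _ _ _
    rw [h2] at h1
    rw [← h1]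
    refine Finset.sum_congr rfl fun j _ => ?_
    rw [Matrix.transpose_apply, Module.Basis.mk_apply]
  have hN : ∀ i, T'.D i = ∑ j, (b.toMatrix b').transpose i j • T.D j := by
    intro i
    have h1 := b.sum_toMatrix_smul_self (b' : Fin d → Derivation ℂ L L) i
    have h2 : b' i = T'.D i := Module.Basis.mk_apply _ _ _
    rw [h2] at h1
    rw [← h1]
    refine Finset.sum_congr rfl fun j _ => ?_
    rw [Matrix.transpose_apply, Module.Basis.mk_apply]
  have hMN : (b'.toMatrix b).transpose * (b.toMatrix b').transpose = 1 := by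
    rw [← Matrix.transpose_mul, Module.Basis.toMatrix_mul_toMatrix_flip, Matrix.transpose_one]
  refine ⟨(b'.toMatrix b).transpose.det, ?_, fun w n hn => chgM T T' hMN hM hN hn⟩
  have hdet : (b'.toMatrix b).transpose.det * (b.toMatrix b').transpose.det = 1 := by
    rw [← Matrix.det_mul, hMN, Matrix.det_one]
  exact left_ne_zero_of_mul_eq_one hdet

end chg

variable {n : ℕ} {K : Type} [Field K] [Algebra ℂ K]
  [Algebra (MvPolynomial (Fin n) ℂ) K] [IsFractionRing (MvPolynomial (Fin n) ℂ) K]
  [IsScalarTower ℂ (MvPolynomial (Fin n) ℂ) K]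

theorem pd_eq_tor (i : Fin n) : pd K i = (cv K i)⁻¹ • tor K i := by
  rw [tor, smul_smul, inv_mul_cancel₀ (cv_ne i), one_smul]

theorem span_tor : Submodule.span K (Set.range (tor K : Fin n → Derivation ℂ K K)) = ⊤ := by
  rw [eq_top_iff, ← span_pd (ι := Fin n), Submodule.span_le]
  rintro _ ⟨i, rfl⟩
  rw [pd_eq_tor]
  exact Submodule.smul_mem _ _ (Submodule.subset_span ⟨i, rfl⟩)

/-- the toric vector fields -/
noncomputable def torFol (K : Type) [Field K] [Algebra ℂ K]
    [Algebra (MvPolynomial (Fin n) ℂ) K] [IsFractionRing (MvPolynomial (Fin n) ℂ) K]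
    [IsScalarTower ℂ (MvPolynomial (Fin n) ℂ) K] : Foliation K n where
  D := tor K
  indep := by
    rw [Fintype.linearIndependent_iff]
    intro g hg i
    have h := DFunLike.congr_fun hg (cv K i)
    rw [Derivation.coe_zero, Pi.zero_apply, der_sum_apply] at h
    rw [Finset.sum_eq_single i] at h
    · rw [tor_cv, if_pos rfl] at h
      exact (mul_eq_zero.1 h).resolve_right (cv_ne i)
    · intro j _ hj
      rw [tor_cv, if_neg hj, mul_zero]
    · intro h; exact absurd (Finset.mem_univ _) h
  closed := by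
    intro i j
    rw [span_tor]
    trivial

/-- the canonical order at a monomial valuation -/
theorem can_aff_mon {v : DVal K} (hv : IsMonomial n v) :
    IsCanOrd (affFol K (Equiv.refl (Fin n))) v ((∑ i : Fin n, v.ord (cv K i)) - 1) := by
  have h1 : IsCanOrd (torFol K : Foliation K n) v (-1) :=
    can_mon (Equiv.refl (Fin n)) (fun i => rfl) hv
  have h2 := chgM (torFol K : Foliation K n) (affFol K (Equiv.refl (Fin n)))
    (M := Matrix.diagonal (cv K)) (N := Matrix.diagonal fun i => (cv K i)⁻¹) (by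
      rw [Matrix.diagonal_mul_diagonal, ← Matrix.diagonal_one]
      congr 1
      funext i
      exact mul_inv_cancel₀ (cv_ne i)) (fun i => by
      rw [Finset.sum_eq_single i]
      · rw [Matrix.diagonal_apply_eq]; rfl
      · intro j _ hj
        rw [Matrix.diagonal_apply_ne _ hj.symm, zero_smul]
      · intro h; exact absurd (Finset.mem_univ _) h) (fun i => by
      rw [Finset.sum_eq_single i]
      · rw [Matrix.diagonal_apply_eq]; exact pd_eq_tor i
      · intro j _ hj
        rw [Matrix.diagonal_apply_ne _ hj.symm, zero_smul]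
      · intro h; exact absurd (Finset.mem_univ _) h) h1
  rw [Matrix.det_diagonal, v.ord_prod _ _ fun i _ => cv_ne i] at h2
  have e1 : (∑ i : Fin n, v.ord (cv K i)) - 1 = -1 + ∑ i : Fin n, v.ord (cv K i) := by ring
  rw [e1]
  exact h2

end Pool.Agent.W2helper37.AQ
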