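import Mathlib
import Pool.Agent.W2helper37.AQ.Can
import Pool.Agent.TH165.ACC.GMain

/-!
# Log discrepancies with respect to an arrangement of hyperplanes
-/

set_option autoImplicit false
set_option linter.unusedSectionVars false

namespace Pool.Agent.W2helper37.AQ

open Pool.Agent.H436R3.Fol Pool.Agent.H436R3.KT Pool.Agent.W497.Mld Pool.Agent.TH165.ACC
  Q47.QM Q47.TV MvPolynomial

variable {n : ℕ} {K : Type} [Field K] [Algebra ℂ K]
  [Algebra (MvPolynomial (Fin n) ℂ) K] [IsFractionRing (MvPolynomial (Fin n) ℂ) K]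
  [IsScalarTower ℂ (MvPolynomial (Fin n) ℂ) K]

/-- the linear form with the coefficients `c` -/
noncomputable def lin (c : Fin n → ℂ) : MvPolynomial (Fin n) ℂ := ∑ i, C (c i) * X i

theorem jo_lin (c : Fin n → ℂ) : jo (Fin n) K (lin c) = cb (cv K) c := by
  rw [lin, map_sum, cb]
  refine Finset.sum_congr rfl fun i _ => ?_
  rw [map_mul, jo_C]
  rfl

theorem coeff_lin (c : Fin n → ℂ) (s : Fin n →₀ ℕ) :
    coeff s (lin c) = ∑ i, if Finsupp.single i 1 = s then c i else 0 := by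
  classical
  rw [lin, coeff_sum]
  refine Finset.sum_congr rfl fun i _ => ?_
  rw [coeff_C_mul, coeff_X]
  split_ifs <;> simp

theorem coeff_lin_single (c : Fin n → ℂ) (i : Fin n) :
    coeff (Finsupp.single i 1) (lin c) = c i := by
  classical
  rw [coeff_lin, Finset.sum_eq_single i]
  · rw [if_pos rfl]
  · intro j _ hj
    rw [if_neg]
    intro h
    exact hj (Finsupp.single_left_injective one_ne_zero h)
  · intro h; exact absurd (Finset.mem_univ _) h

theorem lin_ne {c : Fin n → ℂ} (hc : c ≠ 0) : lin c ≠ 0 := by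
  obtain ⟨i, hi⟩ := Function.ne_iff.1 hc
  intro h
  have h1 := coeff_lin_single c i
  rw [h, coeff_zero] at h1
  exact hi h1.symm

theorem deg_lin (c : Fin n → ℂ) : (lin c).totalDegree ≤ 1 := by
  rw [lin]
  refine totalDegree_finsetSum_le fun i _ => ?_
  refine (totalDegree_mul _ _).trans ?_
  rw [totalDegree_C, zero_add]
  exact (totalDegree_X i).le

section point

variable {Y : AffVar K} (hR : Y.R = RA (Fin n) K) {y : Pt Y}
  (hy : ∀ (i : Fin n) (f : Y.R), (f : K) = cv K i → y f = 0)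

include hR hy

/-- the value at the origin -/
theorem val_pt (q : MvPolynomial (Fin n) ℂ) (f : Y.R) (hf : (f : K) = jo (Fin n) K q) :
    y f = constantCoeff q := by
  let φ : MvPolynomial (Fin n) ℂ →ₐ[ℂ] Y.R :=
    (jo (Fin n) K).codRestrict Y.R fun q => by rw [hR]; exact jo_mem q
  have h1 : f = φ q := Subtype.ext hf
  have h2 : y.comp φ = (aeval (0 : Fin n → ℂ) : MvPolynomial (Fin n) ℂ →ₐ[ℂ] ℂ) := by
    apply MvPolynomial.algHom_ext
    intro i
    rw [aeval_X, AlgHom.comp_apply]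
    exact hy i _ rfl
  have h3 := DFunLike.congr_fun h2 q
  rw [AlgHom.comp_apply, aeval_zero] at h3
  rw [h1, h3]
  rfl

theorem pos_iff_of_over {v : DVal K} (hv : IsOverGerm y v) (q : MvPolynomial (Fin n) ℂ) :
    v.Pos (jo (Fin n) K q) ↔ constantCoeff q = 0 := by
  have hm : jo (Fin n) K q ∈ Y.R := by rw [hR]; exact jo_mem q
  have h1 := hv.2 ⟨jo (Fin n) K q, hm⟩
  rw [val_pt hR hy q ⟨jo (Fin n) K q, hm⟩ rfl] at h1
  exact h1

theorem reg_of_over {v : DVal K} (hv : IsOverGerm y v) (q : MvPolynomial (Fin n) ℂ) :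
    v.Reg (jo (Fin n) K q) := by
  obtain ⟨⟨S, -, hRS, hSv⟩, -⟩ := hv
  exact hSv.1 _ (hRS (by rw [hR]; exact jo_mem q))

theorem onAt_valP {p : MvPolynomial (Fin n) ℂ} (hp : Prime p) (h0 : constantCoeff p = 0) :
    OnAt y (valP K p hp) := by
  refine ⟨by rw [hR]; exact valP_local hp, fun f hf => ?_⟩
  have hfR : (f : K) ∈ RA (Fin n) K := by rw [← hR]; exact f.2
  obtain ⟨q, hq⟩ := hfR
  have hq' : (f : K) = jo (Fin n) K q := hq.symm
  rw [val_pt hR hy q f hq']
  rw [hq'] at hf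
  obtain ⟨c, rfl⟩ := (valP_pos_iff (K := K) hp q).1 hf
  rw [map_mul, h0, zero_mul]

/-- **The formula for log discrepancies** over the origin. -/
theorem key_arr {B : EffDiv Y} {Γ : Set ℝ} (hB : CoeffIn B Γ)
    (harr : ∀ v : DVal K, OnAt y v → B.mult v ≠ 0 →
      ∃ c : Fin n → ℂ, c ≠ 0 ∧ v.Pos (cb (cv K : Fin n → K) c)) (e : LocEq B y) :
    ∃ (r : ℕ) (a : Fin r → Fin n → ℂ) (c : Fin r → ℝ),
      (∀ j, a j ≠ 0 ∧ c j ∈ Γ ∧ 0 < c j) ∧
      ∀ (v : DVal K), IsOverGerm y v → ∀ (N : ℤ),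
        IsCanOrd (affFol K (Equiv.refl (Fin n))) v N → ∀ b : ℝ,
        IsLogDisc e v b ↔ b = 1 + N - ∑ j, c j * (v.ord (cb (cv K : Fin n → K) (a j)) : ℝ) := by
  classical
  obtain ⟨h, h0, hchg⟩ := chg' (affFol K (Equiv.refl (Fin n))) Y.T
    (affVar K (Equiv.refl (Fin n))).top Y.top
  obtain ⟨F, c, hF1, hF2, hF3⟩ := fact (n := n) (K := K) (Fin.cons (-1) e.ρ : Fin (e.n + 1) → ℝ)
    (Fin.cons h e.g : Fin (e.n + 1) → K) (by
      intro k
      refine Fin.cases ?_ (fun i => ?_) k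
      · rw [Fin.cons_zero]; exact h0
      · rw [Fin.cons_succ]; exact e.ne i)
  have hF4 : ∀ v : DVal K, ∑ i, e.ρ i * (v.ord (e.g i) : ℝ) - (v.ord h : ℝ) =
      ∑ p ∈ F, c p * (v.ord (jo (Fin n) K p) : ℝ) := by
    intro v
    rw [← hF3 v, Fin.sum_univ_succ]
    simp only [Fin.cons_zero, Fin.cons_succ]
    ring
  -- the coefficients
  have hcm : ∀ p (hp : p ∈ F), constantCoeff p = 0 → c p = B.mult (valP K p (hF1 p hp)) := by
    intro p hp hp0
    obtain ⟨a, ha, heq⟩ := e.eq _ (onAt_valP hR hy (hF1 p hp) hp0)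
    have h1 : IsCanOrd (affFol K (Equiv.refl (Fin n))) (valP K p (hF1 p hp)) 0 :=
      can_zero _ (valP_local (hF1 p hp))
    have h2 := hchg _ _ h1
    have h3 : a = 0 + (valP K p (hF1 p hp)).ord h := IsLeast.unique ha h2
    have h4 := hF4 (valP K p (hF1 p hp))
    rw [← heq, h3, Finset.sum_eq_single p] at h4
    · rw [valP_self] at h4
      push_cast at h4
      linarith
    · intro q hq hqp
      rw [valP_other (hF1 p hp) (hF1 q hq).ne_zero fun h => hqp (hF2 p hp q hq h).symm]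
      push_cast
      ring
    · intro h; exact absurd hp h
  set F' := F.filter (fun p => constantCoeff p = 0 ∧ c p ≠ 0) with hF'
  have hmem : ∀ p : F', p.1 ∈ F ∧ constantCoeff p.1 = 0 ∧ c p.1 ≠ 0 := fun p =>
    Finset.mem_filter.1 p.2
  -- the primes are linear forms
  have hlin : ∀ p : F', ∃ a : Fin n → ℂ, a ≠ 0 ∧ Associated p.1 (lin a) := by
    intro p
    obtain ⟨hp, hp0, hpc⟩ := hmem p
    have hpr := hF1 p.1 hp
    rw [hcm p.1 hp hp0] at hpc
    obtain ⟨a, ha, hpos⟩ := harr _ (onAt_valP hR hy hpr hp0) hpc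
    rw [← jo_lin] at hpos
    obtain ⟨q, hq⟩ := (valP_pos_iff (K := K) hpr (lin a)).1 hpos
    refine ⟨a, ha, ?_⟩
    have hl := lin_ne ha
    have hq0 : q ≠ 0 := by
      rintro rfl
      rw [mul_zero] at hq
      exact hl hq
    have hd := deg_lin a
    rw [hq, totalDegree_mul_of_isDomain hpr.ne_zero hq0] at hd
    have hpd : p.1.totalDegree ≠ 0 := by
      intro h
      have h1 := totalDegree_eq_zero_iff_eq_C.1 h
      have h2 : constantCoeff p.1 = coeff 0 p.1 := rfl
      rw [← h2, hp0, map_zero] at h1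
      exact hpr.ne_zero h1
    have hqd : q.totalDegree = 0 := by omega
    have h3 := totalDegree_eq_zero_iff_eq_C.1 hqd
    have h4 : coeff 0 q ≠ 0 := by
      intro h
      rw [h, map_zero] at h3
      exact hq0 h3
    have hu : IsUnit q := by
      rw [h3]
      exact (isUnit_iff_ne_zero.2 h4).map C
    exact ⟨hu.unit, by rw [hq]; rfl⟩
  choose a ha hass using hlin
  let ε : Fin F'.card ≃ F' := F'.equivFin.symm
  refine ⟨F'.card, fun j => a (ε j), fun j => c (ε j).1, fun j => ⟨ha _, ?_, ?_⟩, ?_⟩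
  · obtain ⟨hp, hp0, hpc⟩ := hmem (ε j)
    have h1 := hcm _ hp hp0
    change c (ε j).1 ∈ Γ
    rw [h1] at hpc ⊢
    exact hB _ (by rw [hR]; exact valP_local _) hpc
  · obtain ⟨hp, hp0, hpc⟩ := hmem (ε j)
    have h1 := hcm _ hp hp0
    change 0 < c (ε j).1
    rw [h1] at hpc ⊢
    exact lt_of_le_of_ne (mult_nonneg B _) (Ne.symm hpc)
  · intro v hv N hN b
    have h1 : ∑ p ∈ F, c p * (v.ord (jo (Fin n) K p) : ℝ) =
        ∑ j, c (ε j).1 * (v.ord (cb (cv K) (a (ε j))) : ℝ) := by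
      have h2 : ∑ p ∈ F, c p * (v.ord (jo (Fin n) K p) : ℝ) =
          ∑ p ∈ F', c p * (v.ord (jo (Fin n) K p) : ℝ) := by
        symm
        refine Finset.sum_subset (Finset.filter_subset _ _) fun p hp hp' => ?_
        by_cases hcp : c p = 0
        · rw [hcp, zero_mul]
        have hp0 : constantCoeff p ≠ 0 := fun h => hp' (Finset.mem_filter.2 ⟨hp, h, hcp⟩)
        have h3 : v.ord (jo (Fin n) K p) = 0 := by
          have h4 := v.ord_nonneg (jo_ne (hF1 p hp).ne_zero) (reg_of_over hR hy hv p)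
          by_contra h5
          exact hp0 ((pos_iff_of_over hR hy hv p).1 (Or.inr (by omega)))
        rw [h3, Int.cast_zero, mul_zero]
      rw [h2, ← Finset.sum_coe_sort F', ← Equiv.sum_comp ε]
      refine Finset.sum_congr rfl fun j _ => ?_
      congr 2
      rw [← jo_lin]
      exact ord_assoc v (hF1 _ (hmem (ε j)).1).ne_zero (hass (ε j))
    have h5 : ∑ i, e.ρ i * (v.ord (e.g i) : ℝ) = (v.ord h : ℝ) +
        ∑ j, c (ε j).1 * (v.ord (cb (cv K) (a (ε j))) : ℝ) := by
      rw [← h1, ← hF4]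
      ring
    constructor
    · rintro ⟨k, hk, rfl⟩
      have h3 : k = N + v.ord h := IsLeast.unique hk (hchg _ _ hN)
      rw [h5, h3]
      push_cast
      ring
    · intro hb
      refine ⟨N + v.ord h, hchg _ _ hN, ?_⟩
      rw [h5, hb]
      push_cast
      ring

end point

end Pool.Agent.W2helper37.AQ
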