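import Mathlib
import Pool.Agent.W2helper37.AQ.Key
import Pool.Agent.W2helper37.AQ.Coord

/-!
# The minimal log discrepancy of a quotient, in adapted coordinates
-/

set_option autoImplicit false
set_option linter.unusedSectionVars false

namespace Pool.Agent.W2helper37.AQ

open Pool.Agent.H436R3.Fol hiding ex
open Pool.Agent.H436R3.KT Pool.Agent.W497.Mld Pool.Agent.TH165.ACC Q47.QM Q47.TV MvPolynomial

variable {n : ℕ} {K : Type} [Field K] [Algebra ℂ K]
  [Algebra (MvPolynomial (Fin n) ℂ) K] [IsFractionRing (MvPolynomial (Fin n) ℂ) K]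
  [IsScalarTower ℂ (MvPolynomial (Fin n) ℂ) K]

/-- the exponents of the monomials of the linear form with coefficients `a` -/
def Sa (a : Fin n → ℂ) : Set (Fin n → ℕ) := {m | ∃ i, a i ≠ 0 ∧ m = Pi.single i 1}

theorem sum_single (i : Fin n) (w : Fin n → ℝ) :
    ∑ l, (((Pi.single i 1 : Fin n → ℕ) l : ℕ) : ℝ) * w l = w i := by
  rw [Finset.sum_eq_single i]
  · rw [Pi.single_eq_same, Nat.cast_one, one_mul]
  · intro j _ hj
    rw [Pi.single_eq_of_ne hj, Nat.cast_zero, zero_mul]
  · intro h; exact absurd (Finset.mem_univ _) h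

theorem ord_Sa {v : DVal K} (had : Adapted v (cv K : Fin n → K)) {a : Fin n → ℂ} (ha : a ≠ 0) :
    ordAlong (Sa a) (fun i => (v.ord (cv K i) : ℝ)) = v.ord (cb (cv K) a) := by
  obtain ⟨i, hi, h1⟩ := had.exists_eq ha
  refine IsLeast.csInf_eq ⟨⟨Pi.single i 1, ⟨i, hi, rfl⟩, ?_⟩, ?_⟩
  · beta_reduce
    rw [sum_single, h1]
  · rintro _ ⟨m, ⟨j, hj, rfl⟩, rfl⟩
    beta_reduce
    rw [sum_single]
    exact_mod_cast (had a j hj).2

theorem adapted_mon {v : DVal K} (hv : IsMonomial n v) : Adapted v (cv K : Fin n → K) := by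
  intro c i hi
  have hc : c ≠ 0 := fun h => hi (by rw [h]; rfl)
  have h1 := hv (lin c) (lin_ne hc)
  rw [jo_lin] at h1
  refine ⟨by rw [← jo_lin]; exact jo_ne (lin_ne hc), ?_⟩
  have h2 := h1.2 (Finsupp.single i 1) (by rw [mem_support_iff, coeff_lin_single]; exact hi)
  refine h2.trans (le_of_eq ?_)
  rw [pr, Finset.sum_eq_single i]
  · rw [ex, Finsupp.single_eq_same]
    simp [tv]
  · intro j _ hj
    rw [ex, Finsupp.single_eq_of_ne hj]
    simp
  · intro h; exact absurd (Finset.mem_univ _) h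

/-- monomial valuations with positive weights are divisors over the origin -/
theorem over_mon {Y : AffVar K} (hR : Y.R = RA (Fin n) K) {y : Pt Y}
    (hy : ∀ (i : Fin n) (f : Y.R), (f : K) = cv K i → y f = 0) {v : DVal K}
    (hv : IsMonomial n v) (hpos : ∀ i : Fin n, 0 < v.ord (cv K i)) : IsOverGerm y v := by
  have hprim : Prim (tv v : Fin n → ℤ) := prim_of_mon hv
  refine ⟨⟨LA K (Hs (tv v : Fin n → ℤ)), fg_Hs hprim, ?_, local_Hs hv⟩, fun f => ?_⟩
  · rw [hR]
    rintro _ ⟨q, rfl⟩
    have h1 : jo (Fin n) K q * ym K (0 : Fin n → ℤ) ∈ LA K (Hs (tv v : Fin n → ℤ)) := by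
      apply jo_mul_mem_LA
      intro s _
      change 0 ≤ pr _ _
      rw [add_zero]
      exact Finset.sum_nonneg fun i _ => mul_nonneg (by simp [ex]) (hpos i).le
    rwa [ym_zero, mul_one] at h1
  · have hfR : (f : K) ∈ RA (Fin n) K := by rw [← hR]; exact f.2
    obtain ⟨q, hq⟩ := hfR
    have hq' : (f : K) = jo (Fin n) K q := hq.symm
    rw [val_pt hR hy q f hq', hq']
    by_cases hq0 : q = 0
    · rw [hq0, map_zero, map_zero]
      exact ⟨fun _ => rfl, fun _ => Or.inl rfl⟩
    obtain ⟨⟨s, hs, h1⟩, h2⟩ := hv q hq0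
    constructor
    · intro h3
      by_contra h4
      have h5 : (0 : Fin n →₀ ℕ) ∈ q.support := by
        rw [mem_support_iff]
        exact h4
      have h6 := h2 0 h5
      have h7 : pr (ex (0 : Fin n →₀ ℕ)) (tv v) = 0 := by
        rw [pr]
        exact Finset.sum_eq_zero fun i _ => by simp [ex]
      rw [h7] at h6
      have h8 := h3.resolve_left (jo_ne hq0)
      omega
    · intro h3
      right
      have hs0 : s ≠ 0 := by
        rintro rfl
        rw [mem_support_iff] at hs
        exact hs h3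
      obtain ⟨i, hi⟩ := Finsupp.ne_iff.1 hs0
      rw [h1, pr]
      refine Finset.sum_pos' (fun j _ => mul_nonneg (by simp [ex]) (hpos j).le)
        ⟨i, Finset.mem_univ i, mul_pos ?_ (hpos i)⟩
      have hi' : s i ≠ 0 := hi
      simp only [ex]
      omega

/-- diagonal automorphisms in the inertia group of a monomial valuation -/
theorem mon_inertia {v : DVal K} (hv : IsMonomial n v) {φ : K ≃ₐ[ℂ] K} {θ : ℂ} (hθ : θ ≠ 0)
    (hφ : ∀ i : Fin n, φ (cv K i) = algebraMap ℂ K (θ ^ v.ord (cv K i)) * cv K i) :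
    InI v φ ∧ Ch v φ θ := by
  have hym : ∀ m : Fin n → ℤ, φ (ym K m) = algebraMap ℂ K (θ ^ pr m (tv v)) * ym K m := by
    intro m
    have h1 : θ ^ pr m (tv v) = ∏ i, (θ ^ v.ord (cv K i)) ^ m i := by
      rw [pr]
      have key : ∀ s : Finset (Fin n), θ ^ (∑ i ∈ s, m i * tv v i) =
          ∏ i ∈ s, (θ ^ v.ord (cv K i)) ^ m i := by
        intro s
        induction s using Finset.induction_on with
        | empty => simp
        | insert a s ha ih =>
          rw [Finset.sum_insert ha, Finset.prod_insert ha, zpow_add₀ hθ, ih, mul_comm (m a),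
            zpow_mul]
          rfl
      exact key Finset.univ
    rw [h1, ym, map_prod, map_prod, ← Finset.prod_mul_distrib]
    refine Finset.prod_congr rfl fun i _ => ?_
    rw [map_zpow₀ φ, hφ, mul_zpow, ← map_zpow₀ (algebraMap ℂ K)]
  have hL : ∀ f ∈ LA K (Hs (tv v : Fin n → ℤ)), v.Pos (φ f - f) := by
    have hr : ∀ f ∈ LA K (Hs (tv v : Fin n → ℤ)), v.Reg f := fun f hf =>
      reg_LA (fun m hm => hm) hf
    intro f hf
    induction hf using Algebra.adjoin_induction with
    | mem x hx =>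
      obtain ⟨m, hm, rfl⟩ := hx
      rw [hym]
      have hm' : 0 ≤ pr m (tv v) := hm
      rcases hm'.eq_or_lt with h | h
      · rw [← h, zpow_zero, map_one, one_mul, sub_self]; exact pos_zero
      · have h1 : v.Pos (ym K m) := Or.inr (by rw [ord_ym]; exact h)
        exact pos_sub (v.pos_mul_left (v.reg_const _) h1) h1
    | algebraMap r => rw [AlgEquiv.commutes, sub_self]; exact pos_zero
    | add x y _ _ hx hy =>
      rw [map_add]
      have : φ x + φ y - (x + y) = (φ x - x) + (φ y - y) := by ring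
      rw [this]
      exact v.pos_add hx hy
    | mul x y hx' hy' hx hy =>
      rw [map_mul]
      have h2 : v.Reg (φ y) := by
        have : φ y = (φ y - y) + y := by ring
        rw [this]
        exact v.reg_add (reg_of_pos hy) (hr y hy')
      have : φ x * φ y - x * y = φ y * (φ x - x) + x * (φ y - y) := by ring
      rw [this]
      exact v.pos_add (v.pos_mul_left h2 hx) (v.pos_mul_left (hr x hx') hy)
  have hI : InI v φ := by
    intro f hf
    obtain ⟨a, b, ha, hb, hb0, hbo, hab⟩ := (local_Hs hv).2 f hf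
    have hφb0 : φ b ≠ 0 := sne φ hb0
    have hra : v.Reg a := (local_Hs hv).1 a ha
    have hrb : v.Reg b := Or.inr hbo.ge
    have hφb : v.ord (φ b) = 0 := by
      have h1 : φ b = (φ b - b) + b := by ring
      have h2 : v.Reg (φ b) := by
        rw [h1]
        exact v.reg_add (reg_of_pos (hL b hb)) hrb
      have h3 := v.ord_nonneg hφb0 h2
      by_contra h4
      have h5 : v.Pos (φ b) := Or.inr (by omega)
      have h6 : v.Pos b := by
        have : b = φ b - (φ b - b) := by ring
        rw [this]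
        exact pos_sub h5 (hL b hb)
      exact not_pos hb0 hbo h6
    have h1 : f = a * b⁻¹ := by rw [← hab]; field_simp
    have h2 : φ f - f = (b⁻¹ * (φ b)⁻¹) * (b * (φ a - a) - a * (φ b - b)) := by
      rw [h1, map_mul, map_inv₀]
      field_simp
      ring
    rw [h2]
    refine v.pos_mul_left (v.reg_mul (v.reg_inv hb0 hbo) (v.reg_inv hφb0 hφb)) ?_
    exact pos_sub (v.pos_mul_left hrb (hL a ha)) (v.pos_mul_left hra (hL b hb))
  refine ⟨hI, ?_⟩
  obtain ⟨m1, hm1⟩ := prim_of_mon hv
  refine ch_of_pi hI (π := ym K m1) (ym_ne m1) (by rw [ord_ym, hm1]) ?_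
  rw [hym, hm1, zpow_one, mul_div_assoc, div_self (ym_ne m1), mul_one]
  exact UC.const hθ

theorem no_dval0 (hn : n = 0) (v : DVal K) : False := by
  subst hn
  exact no_dval v

/-- **The minimal log discrepancy of the quotient** in coordinates which are adapted to the divisor
which computes it is a minimal log discrepancy of a monomial pair. -/
theorem core2 {Y : AffVar K} (hR : Y.R = RA (Fin n) K) {B : EffDiv Y} {Γ : Set ℝ}
    (hB : CoeffIn B Γ) {y : Pt Y} (hy : ∀ (i : Fin n) (f : Y.R), (f : K) = cv K i → y f = 0)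
    (harr : ∀ v : DVal K, OnAt y v → B.mult v ≠ 0 →
      ∃ c : Fin n → ℂ, c ≠ 0 ∧ v.Pos (cb (cv K : Fin n → K) c)) (e : LocEq B y)
    {τ : K ≃ₐ[ℂ] K} {v0 : DVal K} (hov0 : IsOverGerm y v0)
    (had : Adapted v0 (cv K : Fin n → K)) {r : ℕ} (hr : 0 < r) {ζ : ℂ}
    (hζ : IsPrimitiveRoot ζ r)
    (hτ : ∀ i : Fin n, τ (cv K i) = algebraMap ℂ K (ζ ^ v0.ord (cv K i)) * cv K i)
    {b0 m : ℝ} (hm0 : 0 ≤ m) (hb0 : IsLogDisc e v0 b0) (hm : m = b0 / r)
    (hup : ∀ (j : ℕ) (v : DVal K) (b : ℝ) (θ : ℂ), IsOverGerm y v → IsLogDisc e v b →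
      InI v (τ ^ j) → Ch v (τ ^ j) θ → ∃ s : ℕ, 0 < s ∧ θ ^ s = 1 ∧ m ≤ b / s) :
    ∃ r', m ∈ mldsR n r' Γ := by
  classical
  obtain ⟨r', a, c, hac, hkey⟩ := key_arr hR hy hB harr e
  have hr' : (r : ℝ) ≠ 0 := by exact_mod_cast hr.ne'
  have hr0 : (0 : ℝ) < r := by exact_mod_cast hr
  have hζ0 : ζ ≠ 0 := hζ.ne_zero hr.ne'
  set W0 : Fin n → ℝ := fun i => (v0.ord (cv K i) : ℝ) with hW0
  set w0 : Fin n → ℝ := (r : ℝ)⁻¹ • W0 with hw0
  have hW : W0 = (r : ℝ) • w0 := by rw [hw0, smul_smul, mul_inv_cancel₀ hr', one_smul]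
  have hvpos : ∀ {v : DVal K}, IsOverGerm y v → ∀ i : Fin n, 0 < v.ord (cv K i) := by
    intro v hv i
    have h1 := (pos_iff_of_over hR hy hv (X i)).2 (by rw [constantCoeff_X])
    exact h1.resolve_left (cv_ne i)
  have hw0pos : ∀ i, 0 < w0 i := by
    intro i
    rw [hw0, Pi.smul_apply, smul_eq_mul]
    have h1 : (0 : ℝ) < (v0.ord (cv K i) : ℝ) := by exact_mod_cast hvpos hov0 i
    exact mul_pos (inv_pos.2 hr0) h1
  -- the formula
  have hdisc : ∀ v : DVal K, IsOverGerm y v → Adapted v (cv K : Fin n → K) → ∀ N : ℤ,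
      IsCanOrd (affFol K (Equiv.refl (Fin n))) v N → ∀ b : ℝ, IsLogDisc e v b ↔
        b = 1 + N - ∑ i : Fin n, (v.ord (cv K i) : ℝ) +
          logDisc (fun j => Sa (a j)) c (fun i => (v.ord (cv K i) : ℝ)) := by
    intro v hv hva N hN b
    rw [hkey v hv N hN b, logDisc]
    have h1 : ∑ j, c j * ordAlong (Sa (a j)) (fun i => (v.ord (cv K i) : ℝ)) =
        ∑ j, c j * (v.ord (cb (cv K : Fin n → K) (a j)) : ℝ) :=
      Finset.sum_congr rfl fun j _ => by rw [ord_Sa hva (hac j).1]
    rw [h1]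
    constructor
    · rintro rfl; ring
    · rintro rfl; ring
  let g0 : Fin n → UnitAddCircle := fun i => ((w0 i : ℝ) : UnitAddCircle)
  have hrg : (r : ℕ) • g0 = 0 := by
    funext i
    change r • ((w0 i : ℝ) : UnitAddCircle) = 0
    rw [← AddCircle.coe_nsmul, AddCircle.coe_eq_zero_iff]
    refine ⟨v0.ord (cv K i), ?_⟩
    rw [nsmul_eq_mul, zsmul_eq_mul, mul_one, hw0, Pi.smul_apply, smul_eq_mul, ← mul_assoc,
      mul_inv_cancel₀ hr', one_mul]
  refine ⟨r', AddSubgroup.zmultiples g0, fun j => Sa (a j), c, ?_, fun j => ⟨?_, ?_, (hac j).2⟩, ?_⟩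
  · exact (finite_zmultiples.2 (isOfFinAddOrder_iff_nsmul_eq_zero.2 ⟨r, hr, hrg⟩)).to_subtype
  · obtain ⟨i, hi⟩ := Function.ne_iff.1 (hac j).1
    exact ⟨Pi.single i 1, i, hi, rfl⟩
  · rintro ⟨i, -, h⟩
    have h1 := congrFun h i
    rw [Pi.single_eq_same, Pi.zero_apply] at h1
    exact zero_ne_one h1
  · constructor
    · -- the upper bound
      rintro _ ⟨u, hu, huG, rfl⟩
      obtain ⟨j0, hj0⟩ := AddSubgroup.mem_zmultiples_iff.1 huG
      obtain ⟨j, hj⟩ : ∃ j : ℕ, j • g0 = fun i => ((u i : ℝ) : UnitAddCircle) := by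
        refine ⟨(j0 % r).toNat, ?_⟩
        have h1 : (0 : ℤ) ≤ j0 % r := Int.emod_nonneg _ (by exact_mod_cast hr.ne')
        have h2 : (((j0 % r).toNat : ℕ) : ℤ) = j0 % r := Int.toNat_of_nonneg h1
        rw [← hj0, ← natCast_zsmul, h2]
        conv_rhs => rw [← Int.emod_add_mul_ediv j0 r]
        rw [add_zsmul, mul_comm, mul_zsmul, natCast_zsmul, hrg, zsmul_zero, add_zero]
      have hz : ∀ i, ∃ z : ℤ, u i - j * w0 i = z := by
        intro i
        have h1 := congrFun hj i
        change j • ((w0 i : ℝ) : UnitAddCircle) = ((u i : ℝ) : UnitAddCircle) at h1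
        have h2 : ((u i - j * w0 i : ℝ) : UnitAddCircle) = 0 := by
          rw [AddCircle.coe_sub, ← h1, ← AddCircle.coe_nsmul, nsmul_eq_mul, sub_self]
        rw [AddCircle.coe_eq_zero_iff] at h2
        obtain ⟨z, hz⟩ := h2
        exact ⟨z, by rw [← hz]; simp⟩
      choose z hz using hz
      set U : Fin n → ℤ := fun i => j * v0.ord (cv K i) + r * z i with hU
      have hUu : ∀ i, (U i : ℝ) = r * u i := by
        intro i
        have h1 := hz i
        have h2 : (r : ℝ) * w0 i = v0.ord (cv K i) := by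
          have := congrFun hW i
          rw [Pi.smul_apply, smul_eq_mul] at this
          exact this.symm
        rw [hU]
        push_cast
        rw [← h1, ← h2]
        ring
      have hUpos : ∀ i, 0 < U i := by
        intro i
        have h1 : (0 : ℝ) < U i := by rw [hUu]; exact mul_pos hr0 (hu i)
        exact_mod_cast h1
      have hU0 : U ≠ 0 := by
        intro h
        rcases Nat.eq_zero_or_pos n with hn | hn
        · exact no_dval0 hn v0
        · have h1 := hUpos ⟨0, hn⟩
          rw [h] at h1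
          exact lt_irrefl _ h1
      obtain ⟨k, U', hk, hU', hUk⟩ := exists_prim hU0
      obtain ⟨v, hv, htv⟩ := exists_mon (K := K) hU'
      have hvU : ∀ i : Fin n, v.ord (cv K i) = U' i := fun i => congrFun htv i
      have hUi : ∀ i, U i = k * U' i := fun i => by rw [hUk]; rfl
      have hU'pos : ∀ i, 0 < U' i := by
        intro i
        have h1 := hUpos i
        rw [hUi] at h1
        exact (mul_pos_iff_of_pos_left hk).1 h1
      have hov := over_mon hR hy hv fun i => by rw [hvU]; exact hU'pos i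
      have hdv := (hdisc v hov (adapted_mon hv) _ (can_aff_mon hv)
        (logDisc (fun j => Sa (a j)) c (fun i => (v.ord (cv K i) : ℝ)))).2 (by
          push_cast
          ring)
      have hφ : ∀ i : Fin n, (τ ^ j) (cv K i) =
          algebraMap ℂ K ((ζ ^ k) ^ v.ord (cv K i)) * cv K i := by
        have h1 : ∀ (i : Fin n) (j : ℕ), (τ ^ j) (cv K i) =
            algebraMap ℂ K ((ζ ^ v0.ord (cv K i)) ^ j) * cv K i := by
          intro i j
          induction j with
          | zero => rw [pow_zero, pow_zero, AlgEquiv.one_apply, map_one, one_mul]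
          | succ j ih =>
            rw [pow_succ, AlgEquiv.mul_apply, hτ, map_mul, AlgEquiv.commutes, ih, ← mul_assoc,
              ← map_mul, pow_succ']
        intro i
        rw [h1]
        congr 2
        rw [hvU, ← zpow_mul, ← hUi, hU]
        beta_reduce
        rw [zpow_add₀ hζ0, zpow_mul ζ (r : ℤ), zpow_natCast, hζ.pow_eq_one, one_zpow, mul_one,
          mul_comm, zpow_mul, zpow_natCast]
      obtain ⟨hIv, hCv⟩ := mon_inertia hv (zpow_ne_zero k hζ0) hφ
      obtain ⟨s, hs, hθs, hms⟩ := hup j v _ _ hov hdv hIv hCv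
      obtain ⟨k', rfl⟩ : ∃ k' : ℕ, k = k' := ⟨k.toNat, by omega⟩
      have hk' : 0 < k' := by exact_mod_cast hk
      have hdvd : r ∣ k' * s := by
        rw [zpow_natCast, ← pow_mul] at hθs
        exact (hζ.pow_eq_one_iff_dvd _).1 hθs
      have hle : r ≤ k' * s := Nat.le_of_dvd (Nat.mul_pos hk' hs) hdvd
      have hs0 : (0 : ℝ) < s := by exact_mod_cast hs
      have hk0 : (0 : ℝ) < k' := by exact_mod_cast hk'
      rw [le_div_iff₀ hs0] at hms
      have h5 : (r : ℝ) ≤ k' * s := by exact_mod_cast hle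
      have h6 : (r : ℝ) • u = (k' : ℝ) • (fun i => (v.ord (cv K i) : ℝ)) := by
        funext i
        rw [Pi.smul_apply, Pi.smul_apply, smul_eq_mul, smul_eq_mul, ← hUu, hUi, hvU]
        push_cast
        rfl
      have h7 : (r : ℝ) * logDisc (fun j => Sa (a j)) c u =
          k' * logDisc (fun j => Sa (a j)) c (fun i => (v.ord (cv K i) : ℝ)) := by
        rw [← logDisc_smul _ _ hr0.le, ← logDisc_smul _ _ hk0.le, h6]
      have h8 : (r : ℝ) * m ≤ r * logDisc (fun j => Sa (a j)) c u := by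
        calc (r : ℝ) * m ≤ k' * s * m := mul_le_mul_of_nonneg_right h5 hm0
          _ = k' * (m * s) := by ring
          _ ≤ k' * logDisc (fun j => Sa (a j)) c (fun i => (v.ord (cv K i) : ℝ)) :=
            mul_le_mul_of_nonneg_left hms hk0.le
          _ = _ := h7.symm
      exact le_of_mul_le_mul_left h8 hr0
    · -- the lower bound
      intro t ht
      have h1 : t ≤ logDisc (fun j => Sa (a j)) c w0 :=
        ht ⟨w0, hw0pos, AddSubgroup.mem_zmultiples g0, rfl⟩
      refine h1.trans ?_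
      obtain ⟨N, hN, -⟩ := exists_can (ι := Fin n) (K := K) (Equiv.refl (Fin n)) (v := v0) (by
        rw [affVar_R, ← hR]
        exact hov0.1)
      have h2 := (hdisc v0 hov0 had N hN b0).1 hb0
      have h3 := can_ge_sum (Equiv.refl (Fin n)) hN
      have h4 : (∑ i : Fin n, (v0.ord (cv K i) : ℝ)) ≤ N + 1 := by exact_mod_cast h3
      have h5 : logDisc (fun j => Sa (a j)) c W0 = r * logDisc (fun j => Sa (a j)) c w0 := by
        rw [hW, logDisc_smul _ _ hr0.le]
      rw [hm, le_div_iff₀ hr0, mul_comm, ← h5, h2]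
      linarith

end Pool.Agent.W2helper37.AQ
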