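import Mathlib
import Pool.Agent.W2helper37.GQ.Defs

/-!
# Quotients of arrangements of hyperplanes by finite groups: definitions
-/

set_option autoImplicit false
set_option linter.unusedSectionVars false

namespace Pool.Agent.W2helper37.AQ

open Pool.Agent.H436R3.Fol Pool.Agent.H436R3.KT Pool.Agent.W497.Mld Pool.Agent.TH165.ACC
  Q47.QM Q47.TV Pool.Agent.W2helper37.GQ
open Pool.Agent.Helper58K9.ET (Etale)

/-- `f` is an affine linear function `a + b_1 x_1 + ... + b_n x_n` on the affine space. -/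
def IsAff (n : ℕ) {K : Type} [Field K] [Algebra ℂ K]
    [Algebra (MvPolynomial (Fin n) ℂ) K] [IsFractionRing (MvPolynomial (Fin n) ℂ) K]
    [IsScalarTower ℂ (MvPolynomial (Fin n) ℂ) K] (f : K) : Prop :=
  ∃ (a : ℂ) (b : Fin n → ℂ), f = algebraMap ℂ K a + ∑ i, algebraMap ℂ K (b i) * cv K i

/-- The boundary `B` is at the closed point `y` an arrangement of hyperplanes: `Y` is the affine space
of dimension `n`, and on each component of `B` through `y` some affine linear function `f ≠ 0`
vanishes. -/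
def IsArrAt (n : ℕ) {K : Type} [Field K] [Algebra ℂ K]
    [Algebra (MvPolynomial (Fin n) ℂ) K] [IsFractionRing (MvPolynomial (Fin n) ℂ) K]
    [IsScalarTower ℂ (MvPolynomial (Fin n) ℂ) K] {Y : AffVar K} (B : EffDiv Y) (y : Pt Y) : Prop :=
  Y.R = RA (Fin n) K ∧ ∀ v : DVal K, OnAt y v → B.mult v ≠ 0 → ∃ f : K, f ≠ 0 ∧ IsAff n f ∧ v.Pos f

/-- An étale chart at the closed point `x` of `X` for the automorphism `σ` of the germ: an arrangement
of hyperplanes `B'` in the affine space `Y` of dimension `n` with coefficients in `Γ`, a closed point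
`y` of `Y` and an automorphism `τ` of `Y` which is affine linear; an affine variety `U` with étale
morphisms to `X` and to `Y` (`Etale`: the coordinate ring of `U` is a standard étale algebra), a closed
point `u` of `U` over `x` and over `y`, an automorphism `ρ` of `U` which fixes `u` and lies over `σ` and
over `τ`, such that the pull-backs of `K_X + B` and of `K_Y + B'` to `U` agree at `u`: a divisor over
`u` has the same log discrepancy with respect to both pairs. -/
structure ArrChart (n : ℕ) (K : Type) [Field K] [Algebra ℂ K]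
    [Algebra (MvPolynomial (Fin n) ℂ) K] [IsFractionRing (MvPolynomial (Fin n) ℂ) K]
    [IsScalarTower ℂ (MvPolynomial (Fin n) ℂ) K] (Γ : Set ℝ) {L : Type} [Field L] [Algebra ℂ L]
    {X : AffVar L} {B : EffDiv X} {x : Pt X} (e : LocEq B x) (σ : L ≃ₐ[ℂ] L) where
  Y : AffVar K
  B' : EffDiv Y
  coef : CoeffIn B' Γ
  y : Pt Y
  arr : IsArrAt n B' y
  e' : LocEq B' y
  τ : K ≃ₐ[ℂ] K
  aff : ∀ i : Fin n, IsAff n (τ (cv K i))
  Ω : Type
  [fΩ : Field Ω]
  [aΩ : Algebra ℂ Ω]
  [aL : Algebra L Ω]
  [sL : IsScalarTower ℂ L Ω]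
  [aK : Algebra K Ω]
  [sK : IsScalarTower ℂ K Ω]
  U : AffVar Ω
  etX : Etale X U.R
  etY : Etale Y U.R
  u : Pt U
  ux : etX.im u = x
  uy : etY.im u = y
  ρ : Ω ≃ₐ[ℂ] Ω
  autU : ∀ f, ρ f ∈ U.R ↔ f ∈ U.R
  fixU : FixesPt u ρ
  comX : ∀ f : L, ρ (algebraMap L Ω f) = algebraMap L Ω (σ f)
  comY : ∀ f : K, ρ (algebraMap K Ω f) = algebraMap K Ω (τ f)
  disc : ∀ (w : DVal Ω) (v : DVal L) (v' : DVal K), IsOverGerm u w →
    (∀ f : L, f ≠ 0 → w.ord (algebraMap L Ω f) = v.ord f) →
    (∀ f : K, f ≠ 0 → w.ord (algebraMap K Ω f) = v'.ord f) →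
    ∀ b, IsLogDisc e v b ↔ IsLogDisc e' v' b

attribute [instance] ArrChart.fΩ ArrChart.aΩ ArrChart.aL ArrChart.sL ArrChart.aK ArrChart.sK

/-- The pair with the local equation `eY` at the closed point `y` of `Y` is étale locally a quotient of
an arrangement of hyperplanes by a finite group: there are an étale neighbourhood `Z → Y` of `y`, a
normal affine variety `X` with a finite group `G` such that `X / G = Z` (`Cover`), a closed point `x` of
`X` over `y` and an effective divisor `BX` on `X` such that `K_X + BX` is the pull-back of `K_Y + B_Y`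
at `x` (via `K_Z + B_Z`), and for every `σ` in the stabiliser of `x` the pair `(X, BX)` is étale locally
at `x` an arrangement of hyperplanes in the affine space of dimension `n`, with coefficients in `Γ`, on
which `σ` is affine linear (`ArrChart`). -/
def IsArrQuotient (n : ℕ) (Γ : Set ℝ) {M : Type} [Field M] [Algebra ℂ M] {Y : AffVar M}
    {BY : EffDiv Y} {y : Pt Y} (eY : LocEq BY y) : Prop :=
  ∃ (F : Type) (_ : Field F) (_ : Algebra ℂ F) (_ : Algebra M F) (_ : IsScalarTower ℂ M F)
    (L : Type) (_ : Field L) (_ : Algebra ℂ L) (_ : Algebra F L) (_ : IsScalarTower ℂ F L)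
    (_ : FiniteDimensional F L) (_ : IsGalois F L)
    (Z : AffVar F) (h : Etale Y Z.R) (C : Cover Z L) (x : Pt C.X)
    (BZ : EffDiv Z) (eZ : LocEq BZ (C.im x)) (BX : EffDiv C.X) (eX : LocEq BX x),
    h.im (C.im x) = y ∧
    (∀ (v : DVal F) (v' : DVal M), IsOverGerm (C.im x) v →
      (∀ f : M, f ≠ 0 → v.ord (algebraMap M F f) = v'.ord f) →
      ∀ b, IsLogDisc eZ v b ↔ IsLogDisc eY v' b) ∧
    C.IsPull eX eZ ∧
    ∀ σ ∈ C.St x, Nonempty (ArrChart n (FractionRing (MvPolynomial (Fin n) ℂ)) Γ eX σ)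

/-- The minimal log discrepancies `m ≥ 0` of the pairs and closed points which are étale locally
quotients of arrangements of hyperplanes in the affine space of dimension `n`, with coefficients in `Γ`,
by finite groups. -/
def arrQuotMlds (n : ℕ) (Γ : Set ℝ) : Set ℝ :=
  {m | 0 ≤ m ∧ ∃ (M : Type) (_ : Field M) (_ : Algebra ℂ M) (Y : AffVar M) (BY : EffDiv Y)
    (y : Pt Y) (eY : LocEq BY y), IsArrQuotient n Γ eY ∧ Pool.Agent.W497.Mld.IsMld eY m}

end Pool.Agent.W2helper37.AQ
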