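import Mathlib
import Pool.Agent.W2helper37.AQ.Core
import Pool.Agent.W2helper37.AQ.Defs
import Pool.Agent.W2helper37.GQ.Toric

/-!
# The ascending chain condition for quotients of arrangements of hyperplanes
-/

set_option autoImplicit false
set_option linter.unusedSectionVars false

namespace Pool.Agent.W2helper37.AQ

open Pool.Agent.H436R3.Fol Pool.Agent.H436R3.KT Pool.Agent.W497.Mld Pool.Agent.TH165.ACC
  Q47.QM Q47.TV Pool.Agent.W2helper37.GQ
open Pool.Agent.Helper58K9.ET (Etale OverPt dens frac up down idEtale idEtale_im)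

section chart

variable {n : ℕ} {K : Type} [Field K] [Algebra ℂ K]
  [Algebra (MvPolynomial (Fin n) ℂ) K] [IsFractionRing (MvPolynomial (Fin n) ℂ) K]
  [IsScalarTower ℂ (MvPolynomial (Fin n) ℂ) K] {Γ : Set ℝ} {L : Type} [Field L] [Algebra ℂ L]

section pt

variable {Y : AffVar K} (hR : Y.R = RA (Fin n) K) (y : Pt Y)

/-- the coordinates of a closed point -/
noncomputable def pc (i : Fin n) : ℂ := y ⟨cv K i, by rw [hR]; exact cv_mem i⟩

theorem pc_spec (i : Fin n) (f : Y.R) (hf : (f : K) = cv K i) : y f = pc hR y i := by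
  have h1 : f = ⟨cv K i, by rw [hR]; exact cv_mem i⟩ := Subtype.ext hf
  rw [h1]
  rfl

include hR in
theorem cc_R (c : Fin n → ℂ) (i : Fin n) : cc K c i ∈ Y.R := by
  rw [hR]
  exact cc_mem c i

include hR in
theorem span_R (c : Fin n → ℂ) {f : K} (hf : f ∈ Submodule.span ℂ (Set.range (cc K c))) :
    f ∈ Y.R := by
  obtain ⟨a, rfl⟩ := (mem_span_iff_cb _ _).1 hf
  rw [cb]
  exact sum_mem fun i _ => mul_mem (Subalgebra.algebraMap_mem _ _) (cc_R hR c i)

theorem val_cc (i : Fin n) : y ⟨cc K (pc hR y) i, cc_R hR _ i⟩ = 0 := by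
  have h1 : (⟨cc K (pc hR y) i, cc_R hR _ i⟩ : Y.R) =
      ⟨cv K i, by rw [hR]; exact cv_mem i⟩ - algebraMap ℂ Y.R (pc hR y i) := Subtype.ext rfl
  rw [h1, map_sub, AlgHom.commutes]
  exact sub_self _

theorem val_cb (a : Fin n → ℂ) (f : Y.R) (hf : (f : K) = cb (cc K (pc hR y)) a) : y f = 0 := by
  have h1 : f = ∑ i, algebraMap ℂ Y.R (a i) * ⟨cc K (pc hR y) i, cc_R hR _ i⟩ := by
    apply Subtype.ext
    rw [hf, cb]
    push_cast
    rfl
  rw [h1, map_sum]
  refine Finset.sum_eq_zero fun i _ => ?_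
  rw [map_mul, val_cc, mul_zero]

theorem val_span {f : K} (hf : f ∈ Submodule.span ℂ (Set.range (cc K (pc hR y)))) (f' : Y.R)
    (h : (f' : K) = f) : y f' = 0 := by
  obtain ⟨a, rfl⟩ := (mem_span_iff_cb _ _).1 hf
  exact val_cb hR y a f' h

/-- affine linear functions which vanish at `y` -/
theorem aff_span {f : K} (hf : IsAff n f) (f' : Y.R) (h : (f' : K) = f) (h0 : y f' = 0) :
    f ∈ Submodule.span ℂ (Set.range (cc K (pc hR y))) := by
  obtain ⟨a, b, rfl⟩ := hf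
  rw [mem_span_iff_cb]
  refine ⟨b, ?_⟩
  have hcR : cb (cc K (pc hR y)) b ∈ Y.R :=
    span_R hR _ (cb_mem _ b)
  have h1 : algebraMap ℂ K a + ∑ i, algebraMap ℂ K (b i) * cv K i =
      algebraMap ℂ K (a + ∑ i, b i * pc hR y i) + cb (cc K (pc hR y)) b := by
    rw [cb, map_add, map_sum, add_assoc, ← Finset.sum_add_distrib]
    congr 1
    refine Finset.sum_congr rfl fun i _ => ?_
    rw [cc, map_mul]
    ring
  have h2 : f' = algebraMap ℂ Y.R (a + ∑ i, b i * pc hR y i) +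
      ⟨cb (cc K (pc hR y)) b, hcR⟩ := by
    apply Subtype.ext
    rw [h, h1]
    rfl
  have h3 : a + ∑ i, b i * pc hR y i = 0 := by
    rw [h2, map_add, AlgHom.commutes, val_cb hR y b _ rfl, add_zero] at h0
    exact h0
  rw [h1, h3, map_zero, zero_add]

end pt

/-- `core2` for coordinates which vanish at `y` -/
theorem core3 {Y : AffVar K} (hR : Y.R = RA (Fin n) K) {B : EffDiv Y}
    (hB : CoeffIn B Γ) {y : Pt Y} {z : Fin n → K} {x0 : Fin n → ℂ}
    (hzW : ∀ i, z i ∈ Submodule.span ℂ (Set.range (cc K x0)))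
    (hyz : ∀ (i : Fin n) (f : Y.R), (f : K) = z i → y f = 0)
    (harr : ∀ v : DVal K, OnAt y v → B.mult v ≠ 0 →
      ∃ c : Fin n → ℂ, c ≠ 0 ∧ v.Pos (cb z c)) (e : LocEq B y)
    {τ : K ≃ₐ[ℂ] K} {v0 : DVal K} (hov0 : IsOverGerm y v0)
    (had : Adapted v0 z) {r : ℕ} (hr : 0 < r) {ζ : ℂ}
    (hζ : IsPrimitiveRoot ζ r)
    (hτ : ∀ i : Fin n, τ (z i) = algebraMap ℂ K (ζ ^ v0.ord (z i)) * z i)
    {b0 m : ℝ} (hm0 : 0 ≤ m) (hb0 : IsLogDisc e v0 b0) (hm : m = b0 / r)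
    (hup : ∀ (j : ℕ) (v : DVal K) (b : ℝ) (θ : ℂ), IsOverGerm y v → IsLogDisc e v b →
      InI v (τ ^ j) → Ch v (τ ^ j) θ → ∃ s : ℕ, 0 < s ∧ θ ^ s = 1 ∧ m ≤ b / s) :
    ∃ r', m ∈ mldsR n r' Γ := by
  obtain ⟨-, i1, i2, i3, hcv, hRA⟩ := exists_coords hR x0 had.li hzW
  have hcv' : @cv (Fin n) K _ _ i1 i3 = z := funext hcv
  subst hcv'
  exact @core2 n K _ _ i1 i2 i3 Y hRA B Γ hB y hyz harr e τ v0 hov0 had r hr ζ hζ hτ b0 m hm0
    hb0 hm hup

/-- The minimal log discrepancies of quotients with charts are those of monomial pairs. -/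
theorem ArrChart.mem {X : AffVar L} {BX : EffDiv X} {x : Pt X} {e : LocEq BX x}
    {G : Subgroup (L ≃ₐ[ℂ] L)} [Finite G] {m : ℝ} (hm0 : 0 ≤ m)
    (hx : ∀ σ ∈ G, Nonempty (ArrChart n K Γ e σ)) (hm : IsQuotMldX e G m) :
    ∃ r, m ∈ mldsR n r Γ := by
  classical
  obtain ⟨⟨v1, b0, hov1, hl1, hmb⟩, hleast⟩ := hm
  rw [card_inert] at hmb
  obtain ⟨hr, σ1, hσ1, hI1, hσr, hch1⟩ := exists_gen G v1
  set r := Nat.card (G ⊓ Ig v1 : Subgroup (L ≃ₐ[ℂ] L)) with hrd
  have hprim := Complex.isPrimitiveRoot_exp r hr.ne'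
  obtain ⟨C⟩ := hx σ1 hσ1
  have hX := isEtale_of C.etX C.u
  have hY := isEtale_of C.etY C.u
  rw [C.ux] at hX
  rw [C.uy] at hY
  have hcX : ∀ f : L, C.ρ (IsScalarTower.toAlgHom ℂ L C.Ω f) =
      IsScalarTower.toAlgHom ℂ L C.Ω (σ1 f) := fun f => C.comX f
  have hcY : ∀ f : K, C.ρ (IsScalarTower.toAlgHom ℂ K C.Ω f) =
      IsScalarTower.toAlgHom ℂ K C.Ω (C.τ f) := fun f => C.comY f
  obtain ⟨w1, v0, hw1, hr1, hov0, hr1', hI, hch⟩ :=
    transfer hX hY hcX hcY C.autU C.fixU hov1 hI1 hch1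
  have hl0 : IsLogDisc C.e' v0 b0 := (C.disc w1 v1 v0 hw1 (fun f _ => (hr1 f).symm)
    (fun f _ => (hr1' f).symm) b0).1 hl1
  have hτr : C.τ ^ r = 1 := by
    have h1 : C.ρ ^ r = 1 := by
      refine rigid C.etX (aut_pow C.autU r) (fix_pow C.autU C.fixU r) (fun f => ?_) hw1
      have h2 := com_pow hcX r f
      rw [hσr] at h2
      exact h2
    apply AlgEquiv.ext
    intro f
    have h2 := com_pow hcY r f
    rw [h1] at h2
    exact ((algebraMap K C.Ω).injective h2).symm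
  -- the linear functions
  have hR := C.arr.1
  have hfix : FixesPt C.y C.τ := fixesPt_of_InI hov0 hI
  have hτR : ∀ i : Fin n, C.τ (cv K i) ∈ C.Y.R := by
    intro i
    obtain ⟨a, b, h⟩ := C.aff i
    rw [h, hR]
    exact add_mem (Subalgebra.algebraMap_mem _ _)
      (sum_mem fun i _ => mul_mem (Subalgebra.algebraMap_mem _ _) (cv_mem i))
  have hτW : ∀ f ∈ Submodule.span ℂ (Set.range (cc K (pc hR C.y))),
      C.τ f ∈ Submodule.span ℂ (Set.range (cc K (pc hR C.y))) := by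
    intro f hf
    obtain ⟨a, rfl⟩ := (mem_span_iff_cb _ _).1 hf
    rw [cb, map_sum]
    refine Submodule.sum_mem _ fun i _ => ?_
    rw [map_mul, AlgEquiv.commutes, ← Algebra.smul_def]
    refine Submodule.smul_mem _ _ ?_
    have h1 : C.τ (cc K (pc hR C.y) i) = C.τ (cv K i) - algebraMap ℂ K (pc hR C.y i) := by
      rw [cc, map_sub, AlgEquiv.commutes]
    have hmem : C.τ (cv K i) - algebraMap ℂ K (pc hR C.y i) ∈ C.Y.R :=
      sub_mem (hτR i) (Subalgebra.algebraMap_mem _ _)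
    rw [h1]
    refine aff_span hR C.y ?_ ⟨_, hmem⟩ rfl ?_
    · obtain ⟨a, b, h⟩ := C.aff i
      refine ⟨a - pc hR C.y i, b, ?_⟩
      rw [h, map_sub]
      ring
    · have h2 : (⟨_, hmem⟩ : C.Y.R) = ⟨C.τ (cv K i), hτR i⟩ -
          algebraMap ℂ C.Y.R (pc hR C.y i) := Subtype.ext rfl
      rw [h2, map_sub, AlgHom.commutes]
      have h3 := hfix ⟨cv K i, by rw [hR]; exact cv_mem i⟩ ⟨C.τ (cv K i), hτR i⟩ rfl
      rw [← h3]
      exact sub_self _
  obtain ⟨y0, hy0, hy0W⟩ := exists_adapted v0 n (cc K (pc hR C.y)) (cc_li _)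
  obtain ⟨z, hz, hzW, hτz⟩ := exists_eig hI hch hr hτr hτW hy0 hy0W
  have hWz := (exists_coords hR (pc hR C.y) hz.li hzW).1
  have harr : ∀ v : DVal K, OnAt C.y v → C.B'.mult v ≠ 0 →
      ∃ c : Fin n → ℂ, c ≠ 0 ∧ v.Pos (cb z c) := by
    intro v hv hmult
    obtain ⟨f, hf0, hfa, hfv⟩ := C.arr.2 v hv hmult
    have hfR : f ∈ C.Y.R := by
      obtain ⟨a, b, h⟩ := hfa
      rw [h, hR]
      exact add_mem (Subalgebra.algebraMap_mem _ _)
        (sum_mem fun i _ => mul_mem (Subalgebra.algebraMap_mem _ _) (cv_mem i))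
    have h1 := aff_span hR C.y hfa ⟨f, hfR⟩ rfl (hv.2 ⟨f, hfR⟩ hfv)
    obtain ⟨c, rfl⟩ := (mem_span_iff_cb z f).1 (hWz f h1)
    refine ⟨c, ?_, hfv⟩
    rintro rfl
    apply hf0
    rw [cb]
    exact Finset.sum_eq_zero fun i _ => by rw [Pi.zero_apply, map_zero, zero_mul]
  have hyz : ∀ (i : Fin n) (f : C.Y.R), (f : K) = z i → C.y f = 0 := fun i f hf =>
    val_span hR C.y (hzW i) f hf
  refine core3 hR C.coef hzW hyz harr C.e' hov0 hz hr hprim hτz hm0 hl0 hmb ?_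
  · intro j v b θ hov hb hIv hCv
    obtain ⟨w2, v', hw2, hr2, hov', hr2', hIv', hChv'⟩ :=
      transfer hY hX (com_pow hcY j) (com_pow hcX j) (aut_pow C.autU j)
        (fix_pow C.autU C.fixU j) hov hIv hCv
    have hl'' := (C.disc w2 v' v hw2 (fun f _ => (hr2' f).symm) (fun f _ => (hr2 f).symm) b).2 hb
    obtain ⟨hs0, -⟩ := exists_gen G v'
    refine ⟨Nat.card (G ⊓ Ig v' : Subgroup (L ≃ₐ[ℂ] L)), hs0, ?_,
      hleast ⟨v', _, hov', hl'', by rw [card_inert]⟩⟩
    set s' := Nat.card (G ⊓ Ig v' : Subgroup (L ≃ₐ[ℂ] L)) with hs'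
    have hpow : (σ1 ^ j) ^ s' = 1 := by
      have h1 : σ1 ^ j ∈ (G ⊓ Ig v' : Subgroup (L ≃ₐ[ℂ] L)) :=
        ⟨Subgroup.pow_mem _ hσ1 _, mem_Ig.2 hIv'⟩
      have h2 : (⟨σ1 ^ j, h1⟩ : (G ⊓ Ig v' : Subgroup (L ≃ₐ[ℂ] L))) ^ s' = 1 :=
        pow_card_eq_one'
      have h3 := congrArg Subtype.val h2
      simpa using h3
    have h1 := Ch.pow' hIv' hChv' s'
    rw [hpow] at h1
    exact h1.uniq Ch.one

end chart

/-- **The ascending chain condition** for quotients of arrangements of hyperplanes. -/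
theorem acc_arrq (n : ℕ) (Γ : Set ℝ) (hΓ : Pool.Agent.TH165.ACC.IsDCC Γ) :
    IsACC (arrQuotMlds n Γ) := by
  intro s hs hmem
  refine acc (n := n) hΓ s hs fun k => ?_
  obtain ⟨h0, M, i1, i2, Y, BY, y, eY, hq, hm⟩ := hmem k
  obtain ⟨F, i3, i4, i5, i6, L, i7, i8, i9, i10, i11, i12, Z, h, C, x, BZ, eZ, BX, eX, hy, hd, hp,
    hch⟩ := hq
  subst hy
  have h1 : Pool.Agent.W497.Mld.IsMld eZ (s k) := (mld_etale h hd (s k)).1 hm
  have h2 : IsQuotMldX (X := C.X) eX (C.St x) (s k) := (C.mld_iff hp (s k)).1 h1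
  have := finite_St (C := C) x
  exact ArrChart.mem h0 hch h2

/-- Global quotients: if the variety `X` of the cover is the affine space, the group acts by affine
linear maps and `BX` is an arrangement of hyperplanes, then the quotient belongs to the class. -/
theorem affine_mem (n : ℕ) (Γ : Set ℝ) {F : Type} [Field F] [Algebra ℂ F]
    [Algebra F (FractionRing (MvPolynomial (Fin n) ℂ))]
    [IsScalarTower ℂ F (FractionRing (MvPolynomial (Fin n) ℂ))]
    [FiniteDimensional F (FractionRing (MvPolynomial (Fin n) ℂ))]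
    [IsGalois F (FractionRing (MvPolynomial (Fin n) ℂ))]
    {Z : AffVar F} (C : Cover Z (FractionRing (MvPolynomial (Fin n) ℂ)))
    (haff : ∀ (σ : FractionRing (MvPolynomial (Fin n) ℂ) ≃ₐ[F] FractionRing (MvPolynomial (Fin n) ℂ))
      (i : Fin n), IsAff n (σ (cv _ i)))
    (x : Pt C.X) {BX : EffDiv C.X} (hB : CoeffIn BX Γ) (harr : IsArrAt n BX x) (eX : LocEq BX x)
    {BZ : EffDiv Z} (eZ : LocEq BZ (C.im x)) (hp : C.IsPull eX eZ) : IsArrQuotient n Γ eZ := by
  refine ⟨F, inferInstance, inferInstance, Algebra.id _, inferInstance,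
    FractionRing (MvPolynomial (Fin n) ℂ), inferInstance, inferInstance, inferInstance,
    inferInstance, inferInstance, inferInstance, Z, idEtale Z, C, x, BZ, eZ, BX, eX, rfl, ?_, hp, ?_⟩
  · intro v v' hv hvv b
    exact ⟨same_disc eZ hvv b, same_disc eZ (same_symm hvv) b⟩
  · rintro σ ⟨hσ1, hσ2⟩
    have hR : ∀ τ ∈ C.St x, ∀ f, f ∈ C.X.R → τ f ∈ C.X.R := by
      rintro τ ⟨h1, h2⟩ f hf
      exact C.stab (AlgEquiv.ofRingEquiv (f := τ.toRingEquiv) h1) f hf
    exact ⟨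
      { Y := C.X
        B' := BX
        coef := hB
        y := x
        arr := harr
        e' := eX
        τ := σ
        aff := fun i => haff (AlgEquiv.ofRingEquiv (f := σ.toRingEquiv) hσ1) i
        Ω := FractionRing (MvPolynomial (Fin n) ℂ)
        U := C.X
        etX := idEtale C.X
        etY := idEtale C.X
        u := x
        ux := rfl
        uy := rfl
        ρ := σ
        autU := fun f => ⟨fun hf => by
          have h1 := hR _ (inv_mem (⟨hσ1, hσ2⟩ : σ ∈ C.St x)) _ hf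
          have h2 : σ⁻¹ (σ f) = f := σ.symm_apply_apply f
          rwa [h2] at h1, hR σ ⟨hσ1, hσ2⟩ f⟩
        fixU := hσ2
        comX := fun f => rfl
        comY := fun f => rfl
        disc := fun w v v' hw h2 h3 b => ⟨fun h => same_disc eX h3 b (same_disc eX (same_symm h2) b h),
          fun h => same_disc eX h2 b (same_disc eX (same_symm h3) b h)⟩ }⟩

/-- Arrangements of hyperplanes in the affine space belong to the class. -/
theorem plain_mem (n : ℕ) (Γ : Set ℝ) {Y : AffVar (FractionRing (MvPolynomial (Fin n) ℂ))}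
    {B : EffDiv Y} (hB : CoeffIn B Γ) {y : Pt Y} (harr : IsArrAt n B y) (e : LocEq B y) :
    IsArrQuotient n Γ e := by
  have hn : IsNormal Y := by
    intro f hf
    rw [harr.1] at hf ⊢
    exact RA_normal hf
  have h := affine_mem n Γ (Z := Y) (trivCover Y hn) (fun σ i => ?_) y (BX := B) hB harr e e
    (fun w _ => rfl)
  · exact h
  · have h1 : σ (cv _ i) = cv _ i := σ.commutes (cv _ i)
    rw [h1]
    refine ⟨0, Pi.single i 1, ?_⟩
    rw [map_zero, zero_add, Finset.sum_eq_single i]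
    · rw [Pi.single_eq_same, map_one, one_mul]
    · intro j _ hj
      rw [Pi.single_eq_of_ne hj, map_zero, zero_mul]
    · intro h; exact absurd (Finset.mem_univ _) h

end Pool.Agent.W2helper37.AQ
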